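import Mathlib

set_option autoImplicit false

open MeasureTheory ENNReal Filter Topology Complex Set
open scoped ComplexConjugate

namespace Pool.Agent.H15PB

/-- an integral of exponentials is analytic in the strip -/
theorem ana {α : Type*} [MeasurableSpace α] (μ : Measure α) [IsFiniteMeasure μ] (a b : α → ℝ) (c : α → ℂ)
    (ha : Measurable a) (hb : Measurable b) (hc : Measurable c) (K : ℝ)
    (hK : ∀ w, ∀ s : ℝ, -(1 / 2) ≤ s → s ≤ 3 / 2 → Real.exp (a w + s * b w) ≤ K)
    (h1 : ∀ w, ‖c w‖ ≤ 1) :
    DiffContOnCl ℂ (fun z : ℂ => ∫ w, c w * Complex.exp ((a w : ℂ) + z * (b w : ℂ)) ∂μ)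
      {z : ℂ | 0 < z.re ∧ z.re < 1} ∧
    ∀ z : ℂ, 0 ≤ z.re → z.re ≤ 1 →
      ‖∫ w, c w * Complex.exp ((a w : ℂ) + z * (b w : ℂ)) ∂μ‖ ≤ K * μ.real univ := by
  have hn : ∀ (w : α) (z : ℂ), ‖Complex.exp ((a w : ℂ) + z * (b w : ℂ))‖ = Real.exp (a w + z.re * b w) := by
    intro w z
    rw [Complex.norm_exp]
    congr 1
    simp
  have hmeas : ∀ z : ℂ, Measurable fun w => c w * Complex.exp ((a w : ℂ) + z * (b w : ℂ)) := by
    intro z
    fun_prop
  have hK0 : ∀ w, 0 < K := fun w => (Real.exp_pos _).trans_le (hK w 0 (by norm_num) (by norm_num))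
  have hbd : ∀ (w : α) (z : ℂ), -(1 / 2) ≤ z.re → z.re ≤ 3 / 2 →
      ‖c w * Complex.exp ((a w : ℂ) + z * (b w : ℂ))‖ ≤ K := by
    intro w z h2 h3
    rw [norm_mul, hn]
    calc ‖c w‖ * Real.exp (a w + z.re * b w) ≤ 1 * K :=
          mul_le_mul (h1 w) (hK w _ h2 h3) (Real.exp_pos _).le zero_le_one
      _ = K := one_mul _
  constructor
  · apply DifferentiableOn.diffContOnCl
    have hcl : closure {z : ℂ | 0 < z.re ∧ z.re < 1} ⊆ {z : ℂ | 0 ≤ z.re ∧ z.re ≤ 1} := by
      apply closure_minimal
      · intro z hz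
        exact ⟨hz.1.le, hz.2.le⟩
      · have e1 : IsClosed {z : ℂ | 0 ≤ z.re} := isClosed_le continuous_const Complex.continuous_re
        have e2 : IsClosed {z : ℂ | z.re ≤ 1} := isClosed_le Complex.continuous_re continuous_const
        exact e1.inter e2
    intro z₀ hz₀
    have hz := hcl hz₀
    apply DifferentiableAt.differentiableWithinAt
    have key := hasDerivAt_integral_of_dominated_loc_of_deriv_le (μ := μ) (𝕜 := ℂ)
      (F := fun (z : ℂ) w => c w * Complex.exp ((a w : ℂ) + z * (b w : ℂ)))
      (F' := fun (z : ℂ) w => c w * (Complex.exp ((a w : ℂ) + z * (b w : ℂ)) * (b w : ℂ)))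
      (x₀ := z₀) (s := Metric.ball z₀ (1 / 4)) (bound := fun _ => 4 * K)
      (Metric.ball_mem_nhds z₀ (by norm_num))
      (Eventually.of_forall fun z => (hmeas z).aestronglyMeasurable)
      ?_ ?_ ?_ ?_ ?_
    · exact key.2.differentiableAt
    · apply Integrable.of_bound (hmeas z₀).aestronglyMeasurable K
      exact Eventually.of_forall fun w => hbd w z₀ (by linarith [hz.1]) (by linarith [hz.2])
    · have : Measurable fun w => c w * (Complex.exp ((a w : ℂ) + z₀ * (b w : ℂ)) * (b w : ℂ)) := by
        fun_prop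
      exact this.aestronglyMeasurable
    · refine Eventually.of_forall fun w z hz1 => ?_
      have hre : |z.re - z₀.re| < 1 / 4 := by
        have := Complex.abs_re_le_norm (z - z₀)
        rw [Metric.mem_ball, dist_eq_norm] at hz1
        rw [Complex.sub_re] at this
        linarith
      rw [abs_lt] at hre
      obtain ⟨hr1, hr2⟩ := hre
      have hz' := hz.1
      have hz'' := hz.2
      rw [norm_mul, norm_mul, hn, Complex.norm_real, Real.norm_eq_abs]
      have hb4 : |b w| ≤ 4 * Real.exp (|b w| / 4) := by
        have := Real.add_one_le_exp (|b w| / 4)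
        linarith
      have hcase : Real.exp (a w + z.re * b w) * Real.exp (|b w| / 4) ≤ K := by
        rw [← Real.exp_add]
        rcases le_total 0 (b w) with h0 | h0
        · rw [abs_of_nonneg h0]
          have := hK w (z.re + 1 / 4) (by linarith) (by linarith)
          refine le_trans (le_of_eq ?_) this
          congr 1
          ring
        · rw [abs_of_nonpos h0]
          have := hK w (z.re - 1 / 4) (by linarith) (by linarith)
          refine le_trans (le_of_eq ?_) this
          congr 1
          ring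
      calc ‖c w‖ * (Real.exp (a w + z.re * b w) * |b w|)
          ≤ 1 * (Real.exp (a w + z.re * b w) * (4 * Real.exp (|b w| / 4))) := by
            apply mul_le_mul (h1 w) _ (by positivity) zero_le_one
            exact mul_le_mul_of_nonneg_left hb4 (Real.exp_pos _).le
        _ = 4 * (Real.exp (a w + z.re * b w) * Real.exp (|b w| / 4)) := by ring
        _ ≤ 4 * K := by linarith
    · exact integrable_const _
    · refine Eventually.of_forall fun w z _ => ?_
      have h5 : HasDerivAt (fun z : ℂ => (a w : ℂ) + z * (b w : ℂ)) (b w : ℂ) z := by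
        simpa using ((hasDerivAt_id z).mul_const (b w : ℂ)).const_add (a w : ℂ)
      exact (h5.cexp).const_mul (c w)
  · intro z h2 h3
    have := norm_integral_le_of_norm_le_const (μ := μ) (C := K)
      (f := fun w => c w * Complex.exp ((a w : ℂ) + z * (b w : ℂ)))
      (Eventually.of_forall fun w => hbd w z (by linarith) (by linarith))
    simpa [mul_comm] using this

end Pool.Agent.H15PB
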