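import Pool.Agent.H78.PB.Stm4
import Pool.Agent.H78.PB.FIN
import Pool.Agent.N892.BW.REA

set_option autoImplicit false

open MeasureTheory ENNReal Filter Topology

namespace Pool.Agent.H15PB.CFI

open Pool.Agent.N892.BW Pool.Agent.H78.PB Pool.Agent.H78.PB.FIN

/-- the bound at a node, for one `n` -/
def Bn (ε : ℝ) (n : ℕ) (x : ℝ × ℝ) : Prop := ∀ f : SchwartzMap ℂ ℂ,
  eLpNorm (TS n f) (ENNReal.ofReal (1 / x.1)) volume ≤
    ENNReal.ofReal ((1 + ε) * (x.2 * Qn n x.1)) *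
      eLpNorm (fun z : ℂ => f z) (ENNReal.ofReal (1 / x.1)) volume

/-- the bound at a node -/
def NC (ε : ℝ) (x : ℝ × ℝ) : Prop := ∃ n₀ : ℕ, ∀ n : ℕ, n₀ ≤ n → Bn ε n x

theorem nc_half (h : S_PLZ) {ε : ℝ} (hε : 0 < ε) : NC ε (1 / 2, 1) := by
  refine ⟨0, fun n _ f => ?_⟩
  simp only
  rw [REA.Qn_half, mul_one, mul_one]
  have e : (1 : ℝ) / (1 / 2) = 2 := by norm_num
  rw [e]
  refine (h n f).trans ?_
  have h3 : (1 : ℝ≥0∞) ≤ ENNReal.ofReal (1 + ε) := by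
    rw [ENNReal.one_le_ofReal]
    linarith
  calc eLpNorm (fun z : ℂ => f z) (ENNReal.ofReal 2) volume
      = 1 * eLpNorm (fun z : ℂ => f z) (ENNReal.ofReal 2) volume := (one_mul _).symm
    _ ≤ _ := mul_le_mul' h3 le_rfl

theorem Gs_pos {s : ℝ} (h0 : 0 < s) (h1 : s ≤ 1 / 2) : 0 < Gs s := by
  unfold Gs
  exact div_pos (Real.Gamma_pos_of_pos h0) (Real.Gamma_pos_of_pos (by linarith))

theorem nc_of (h6 : R_FUL) (h10 : S_ASR) {s r : ℝ} (hs0 : 1 / 6 ≤ s) (hs1 : s ≤ 5 / 11) (hr : 0 < r)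
    (hp : Pit (1 / (2 * s)) (r * Gs s)) {ε : ℝ} (hε : 0 < ε) : NC ε (s, r) := by
  have hs : 0 < s := by linarith
  have hG := Gs_pos hs (by linarith)
  obtain ⟨δ, hδ⟩ : ∃ δ : ℝ, δ = min 1 (ε / 3) := ⟨_, rfl⟩
  have hδ0 : 0 < δ := by rw [hδ]; positivity
  have hδ1 : δ ≤ 1 := by rw [hδ]; exact min_le_left _ _
  have hδ2 : δ ≤ ε / 3 := by rw [hδ]; exact min_le_right _ _
  have hR : Rg (1 / (2 * s)) := by
    constructor
    · rw [le_div_iff₀ (by positivity)]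
      linarith
    · rw [div_le_iff₀ (by positivity)]
      linarith
  obtain ⟨n₀, hn₀⟩ := h6 (1 / (2 * s)) (r * Gs s) δ hR (by positivity) hp hδ0
  have h7 := (h10 s hs (by linarith)).eventually_lt_const (show (1 : ℝ) < 1 + δ by linarith)
  obtain ⟨n₁, hn₁⟩ := eventually_atTop.1 h7
  refine ⟨max n₀ n₁, fun n hn f => ?_⟩
  have ha := hn₀ n ((le_max_left _ _).trans hn) f
  have hb := hn₁ n ((le_max_right _ _).trans hn)
  have hQ := REA.Qn_pos n hs (by linarith)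
  rw [div_lt_iff₀ hQ] at hb
  simp only
  have e1 : 2 * (1 / (2 * s)) = 1 / s := by field_simp
  rw [e1] at ha
  refine ha.trans (mul_le_mul' (ENNReal.ofReal_le_ofReal ?_) le_rfl)
  have e2 : Ar (1 / (2 * s)) (r * Gs s) n = r * ((n : ℝ) ^ (1 - 2 * s) * Gs s) := by
    unfold Ar
    have : 1 - 1 / (1 / (2 * s)) = 1 - 2 * s := by
      rw [one_div_one_div]
    rw [this]
    ring
  rw [e2]
  calc (1 + δ) * (r * ((n : ℝ) ^ (1 - 2 * s) * Gs s)) ≤ (1 + δ) * (r * ((1 + δ) * Qn n s)) := by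
        gcongr
    _ = (1 + δ) ^ 2 * (r * Qn n s) := by ring
    _ ≤ (1 + ε) * (r * Qn n s) := by
        have : (1 + δ) ^ 2 ≤ 1 + ε := by nlinarith
        gcongr

theorem pit_theta (h1 : P_PIT) {s r : ℝ} (θ : ℝ) (hθ : θ = 2 - 4 * s) (hs0 : 1 / 4 < s) (hs1 : s < 1 / 2)
    (hk : KK θ ≤ r * Gs s) : Pit (1 / (2 * s)) (r * Gs s) := by
  have hθ0 : 0 < θ := by rw [hθ]; linarith
  have hθ1 : θ < 1 := by rw [hθ]; linarith
  have h := h1 θ hθ0 hθ1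
  have e : 2 / (2 - θ) = 1 / (2 * s) := by
    rw [hθ]
    have : s ≠ 0 := by linarith
    have e2 : 2 - (2 - 4 * s) = 2 * (2 * s) := by ring
    rw [e2]
    field_simp
  rw [e] at h
  exact pit_mono (by positivity) (KK_nonneg hθ0 hθ1).le hk h

theorem pit_dbl (h4 : C_CDB) {s r r' : ℝ} (hs0 : 1 / 4 ≤ s) (hs1 : s < 1 / 2) (hr : 1 ≤ r)
    (h : Pit (1 / (2 * s)) (r * Gs s)) (hr' : r ≤ r' ^ 2) (h0 : 0 ≤ r') :
    Pit (1 / (2 * (s / 2))) (r' * Gs (s / 2)) := by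
  have h5 := h4 s r hs0 hs1 hr h
  have hG := Gs_pos (s := s / 2) (by linarith) (by linarith)
  have e : 1 / s = 1 / (2 * (s / 2)) := by
    congr 1
    ring
  rw [e] at h5
  refine pit_mono (by positivity) (by positivity) ?_ h5
  have : Real.sqrt r ≤ r' := Real.sqrt_le_left h0 |>.2 hr'
  gcongr

theorem nodes (h1 : P_PIT) (h3 : C_CNM) (h4 : C_CDB) (h6 : R_FUL) (h7 : P_NMG) (h8 : S_PIT)
    (h10 : S_ASR) (h12 : S_PLZ) {ε : ℝ} (hε : 0 < ε) : ∀ x ∈ nodesC, NC ε x := by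
  obtain ⟨k1, k2, k3, k4, k5, k6, k7, k8, k9⟩ := h3 h7.1
  have p1 := pit_theta h1 (s := 9 / 20) (1 / 5) (by norm_num) (by norm_num) (by norm_num) k1
  have p2 := pit_theta h1 (s := 5 / 12) (1 / 3) (by norm_num) (by norm_num) (by norm_num) k2
  have p3 := pit_theta h1 (s := 11 / 28) (3 / 7) (by norm_num) (by norm_num) (by norm_num) k3
  have p4 := pit_theta h1 (s := 3 / 8) (1 / 2) (by norm_num) (by norm_num) (by norm_num) k4
  have p5 := pit_theta h1 (s := 5 / 14) (4 / 7) (by norm_num) (by norm_num) (by norm_num) k5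
  have p6 := pit_theta h1 (s := 11 / 32) (5 / 8) (by norm_num) (by norm_num) (by norm_num) k6
  have p7 := pit_theta h1 (s := 1 / 3) (2 / 3) (by norm_num) (by norm_num) (by norm_num) k7
  have p8 := pit_theta h1 (s := 5 / 16) (3 / 4) (by norm_num) (by norm_num) (by norm_num) k8
  have p9 := pit_theta h1 (s := 2 / 7) (6 / 7) (by norm_num) (by norm_num) (by norm_num) k9
  have q1 := pit_dbl h4 (r' := 10018 / 10000) (by norm_num) (by norm_num) (by norm_num) p1 (by norm_num)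
    (by norm_num)
  have q2 := pit_dbl h4 (r' := 10022 / 10000) (by norm_num) (by norm_num) (by norm_num) p3 (by norm_num)
    (by norm_num)
  have q3 := pit_dbl h4 (r' := 10023 / 10000) (by norm_num) (by norm_num) (by norm_num) p5 (by norm_num)
    (by norm_num)
  have e1 : (9 : ℝ) / 20 / 2 = 9 / 40 := by norm_num
  have e2 : (11 : ℝ) / 28 / 2 = 11 / 56 := by norm_num
  have e3 : (5 : ℝ) / 14 / 2 = 5 / 28 := by norm_num
  rw [e1] at q1
  rw [e2] at q2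
  rw [e3] at q3
  have s1 : Pit (1 / (2 * (1 / 4))) (1 * Gs (1 / 4)) := by
    have h := pit_nat h8 (m := 2) le_rfl
    have e4 : GA 2 = 1 * Gs (1 / 4) := by
      unfold GA Gs
      norm_num
    have e5 : ((2 : ℕ) : ℝ) = 1 / (2 * (1 / 4)) := by norm_num
    rw [e4, e5] at h
    exact h
  have s2 : Pit (1 / (2 * (1 / 6))) (1 * Gs (1 / 6)) := by
    have h := pit_nat h8 (m := 3) (by norm_num)
    have e4 : GA 3 = 1 * Gs (1 / 6) := by
      unfold GA Gs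
      norm_num
    have e5 : ((3 : ℕ) : ℝ) = 1 / (2 * (1 / 6)) := by norm_num
    rw [e4, e5] at h
    exact h
  intro x hx
  simp only [nodesC, List.mem_cons, List.mem_nil_iff, or_false] at hx
  rcases hx with rfl | rfl | rfl | rfl | rfl | rfl | rfl | rfl | rfl | rfl | rfl | rfl | rfl | rfl | rfl
  · exact nc_half h12 hε
  · exact nc_of h6 h10 (by norm_num) (by norm_num) (by norm_num) p1 hε
  · exact nc_of h6 h10 (by norm_num) (by norm_num) (by norm_num) p2 hε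
  · exact nc_of h6 h10 (by norm_num) (by norm_num) (by norm_num) p3 hε
  · exact nc_of h6 h10 (by norm_num) (by norm_num) (by norm_num) p4 hε
  · exact nc_of h6 h10 (by norm_num) (by norm_num) (by norm_num) p5 hε
  · exact nc_of h6 h10 (by norm_num) (by norm_num) (by norm_num) p6 hε
  · exact nc_of h6 h10 (by norm_num) (by norm_num) (by norm_num) p7 hε
  · exact nc_of h6 h10 (by norm_num) (by norm_num) (by norm_num) p8 hε
  · exact nc_of h6 h10 (by norm_num) (by norm_num) (by norm_num) p9 hε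
  · exact nc_of h6 h10 (by norm_num) (by norm_num) (by norm_num) s1 hε
  · exact nc_of h6 h10 (by norm_num) (by norm_num) (by norm_num) q1 hε
  · exact nc_of h6 h10 (by norm_num) (by norm_num) (by norm_num) q2 hε
  · exact nc_of h6 h10 (by norm_num) (by norm_num) (by norm_num) q3 hε
  · exact nc_of h6 h10 (by norm_num) (by norm_num) (by norm_num) s2 hε

theorem list_unif {α : Type*} (P : ℕ → α → Prop) (l : List α)
    (h : ∀ x ∈ l, ∃ n₀ : ℕ, ∀ n : ℕ, n₀ ≤ n → P n x) : ∃ n₀ : ℕ, ∀ n : ℕ, n₀ ≤ n → ∀ x ∈ l, P n x := by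
  induction l with
  | nil => exact ⟨0, fun n _ x hx => by simp at hx⟩
  | cons a l ih =>
    obtain ⟨n₀, h0⟩ := h a (by simp)
    obtain ⟨n₁, h1⟩ := ih fun x hx => h x (by simp [hx])
    refine ⟨max n₀ n₁, fun n hn x hx => ?_⟩
    rcases List.mem_cons.1 hx with rfl | hx
    · exact h0 n ((le_max_left _ _).trans hn)
    · exact h1 n ((le_max_right _ _).trans hn) x hx

theorem node_range : ∀ x ∈ nodesC, 1 / 6 ≤ x.1 ∧ x.1 ≤ 1 / 2 ∧ 0 < x.2 := by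
  intro x hx
  simp only [nodesC, List.mem_cons, List.mem_nil_iff, or_false] at hx
  rcases hx with rfl | rfl | rfl | rfl | rfl | rfl | rfl | rfl | rfl | rfl | rfl | rfl | rfl | rfl | rfl <;>
    norm_num

/-- interpolation between two nodes -/
theorem between (h9 : S_AMG) (h11 : S_HOE) (h13 : S_RTT) {n : ℕ} {s₀ r₀ s₁ r₁ t ε p : ℝ} (hε : 0 < ε)
    (hs1 : 0 < s₁) (h01 : s₁ < s₀) (hs0 : s₀ ≤ 1 / 2) (hr0 : 0 < r₀) (hr1 : 0 < r₁)
    (hb0 : Bn ε n (s₀, r₀)) (hb1 : Bn ε n (s₁, r₁)) (ht0 : 0 ≤ t) (ht1 : t ≤ 1) (hp : 2 ≤ p)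
    (he : 1 / p = (1 - t) * s₀ + t * s₁) {C : ℝ}
    (hC : (1 + ε) * (r₀ ^ (1 - t) * r₁ ^ t * Real.exp (Real.log (s₀ / s₁) ^ 2 / 8)) ≤ C)
    (f : SchwartzMap ℂ ℂ) :
    eLpNorm (TS n f) (ENNReal.ofReal p) volume ≤
      ENNReal.ofReal (C * Qn n (1 / p)) * eLpNorm (fun z : ℂ => f z) (ENNReal.ofReal p) volume := by
  have hs₀0 : 0 < s₀ := by linarith
  have hQ0 := REA.Qn_pos n hs₀0 hs0
  have hQ1 := REA.Qn_pos n hs1 (h01.le.trans hs0)
  have hK0 : 0 < (1 + ε) * (r₀ * Qn n s₀) := by positivity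
  have hK1 : 0 < (1 + ε) * (r₁ * Qn n s₁) := by positivity
  have hs' : 1 / p = (1 - t) / (1 / s₀) + t / (1 / s₁) := by
    rw [he]
    field_simp
  have key := h13 n (1 / s₀) (1 / s₁) p t ((1 + ε) * (r₀ * Qn n s₀)) ((1 + ε) * (r₁ * Qn n s₁))
    (by rw [le_div_iff₀ hs₀0]; linarith) (one_div_lt_one_div_of_lt hs1 h01) ht0 ht1 hs' hK0 hK1 hb0 hb1 f
  refine key.trans (mul_le_mul' (ENNReal.ofReal_le_ofReal ?_) le_rfl)
  have e1 : ((1 + ε) * (r₀ * Qn n s₀)) ^ (1 - t) * ((1 + ε) * (r₁ * Qn n s₁)) ^ t =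
      (1 + ε) * (r₀ ^ (1 - t) * r₁ ^ t) * (Qn n s₀ ^ (1 - t) * Qn n s₁ ^ t) := by
    have m1 : ((1 + ε) * (r₀ * Qn n s₀)) ^ (1 - t) = (1 + ε) ^ (1 - t) * (r₀ ^ (1 - t) * Qn n s₀ ^ (1 - t)) := by
      rw [Real.mul_rpow (by positivity) (by positivity), Real.mul_rpow hr0.le hQ0.le]
    have m2 : ((1 + ε) * (r₁ * Qn n s₁)) ^ t = (1 + ε) ^ t * (r₁ ^ t * Qn n s₁ ^ t) := by
      rw [Real.mul_rpow (by positivity) (by positivity), Real.mul_rpow hr1.le hQ1.le]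
    rw [m1, m2]
    have h6 : (1 + ε) ^ (1 - t) * (1 + ε) ^ t = 1 + ε := by
      rw [← Real.rpow_add (by positivity)]
      have : 1 - t + t = 1 := by ring
      rw [this, Real.rpow_one]
    calc (1 + ε) ^ (1 - t) * (r₀ ^ (1 - t) * Qn n s₀ ^ (1 - t)) *
          ((1 + ε) ^ t * (r₁ ^ t * Qn n s₁ ^ t))
        = ((1 + ε) ^ (1 - t) * (1 + ε) ^ t) * (r₀ ^ (1 - t) * r₁ ^ t) *
          (Qn n s₀ ^ (1 - t) * Qn n s₁ ^ t) := by ring
      _ = _ := by rw [h6]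
  rw [e1]
  have h6 := h9 n s₀ s₁ t hs1 h01.le hs0 ht0 ht1
  rw [← he] at h6
  have hr1' : 1 ≤ s₀ / s₁ := by
    rw [le_div_iff₀ hs1]
    linarith
  have hR : 1 / p / (s₀ ^ (1 - t) * s₁ ^ t) ≤ Real.exp (Real.log (s₀ / s₁) ^ 2 / 8) := by
    have h7 := h11 (s₀ / s₁) (1 - t) hr1' (by linarith) (by linarith)
    have h8 : s₀ ^ (1 - t) * s₁ ^ t = s₁ * (s₀ / s₁) ^ (1 - t) := by
      rw [Real.div_rpow hs₀0.le hs1.le]
      have h9 : s₁ = s₁ ^ (1 - t) * s₁ ^ t := by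
        rw [← Real.rpow_add hs1]
        have : 1 - t + t = 1 := by ring
        rw [this, Real.rpow_one]
      have h10 : s₁ ^ (1 - t) ≠ 0 := (Real.rpow_pos_of_pos hs1 _).ne'
      have h11 : s₁ * (s₀ ^ (1 - t) / s₁ ^ (1 - t)) =
          (s₁ ^ (1 - t) * s₁ ^ t) * (s₀ ^ (1 - t) / s₁ ^ (1 - t)) := by rw [← h9]
      rw [h11]
      field_simp
    have h12 : 1 / p = s₁ * (1 + (1 - t) * (s₀ / s₁ - 1)) := by
      rw [he]
      field_simp
      ring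
    have h13 : 0 < (s₀ / s₁) ^ (1 - t) := Real.rpow_pos_of_pos (by positivity) _
    rw [h8, div_le_iff₀ (by positivity)]
    calc 1 / p = s₁ * (1 + (1 - t) * (s₀ / s₁ - 1)) := h12
      _ ≤ s₁ * ((s₀ / s₁) ^ (1 - t) * Real.exp (Real.log (s₀ / s₁) ^ 2 / 8)) :=
        mul_le_mul_of_nonneg_left h7 hs1.le
      _ = _ := by ring
  have hsp : 0 < 1 / p := by positivity
  have hph : 1 / p ≤ 1 / 2 := one_div_le_one_div_of_le (by norm_num) hp
  have hQs := REA.Qn_pos n hsp hph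
  calc (1 + ε) * (r₀ ^ (1 - t) * r₁ ^ t) * (Qn n s₀ ^ (1 - t) * Qn n s₁ ^ t)
      ≤ (1 + ε) * (r₀ ^ (1 - t) * r₁ ^ t) * (Qn n (1 / p) * (1 / p / (s₀ ^ (1 - t) * s₁ ^ t))) := by
        gcongr
    _ ≤ (1 + ε) * (r₀ ^ (1 - t) * r₁ ^ t) *
          (Qn n (1 / p) * Real.exp (Real.log (s₀ / s₁) ^ 2 / 8)) := by
        gcongr
    _ = (1 + ε) * (r₀ ^ (1 - t) * r₁ ^ t * Real.exp (Real.log (s₀ / s₁) ^ 2 / 8)) * Qn n (1 / p) := by
        ring
    _ ≤ _ := mul_le_mul_of_nonneg_right hC hQs.le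

/-- **CFI.** -/
theorem t (h1 : P_PIT) (_h2 : P_DBL) (h3 : C_CNM) (h4 : C_CDB) (h5 : C_CHO) (h6 : R_FUL) (h7 : P_NMG)
    (h8 : S_PIT) (h9 : S_AMG) (h10 : S_ASR) (h11 : S_HOE) (h12 : S_PLZ) (h13 : S_RTT) : C_CFI := by
  have hε : (0 : ℝ) < 1 / 200000 := by norm_num
  obtain ⟨n₀, hn₀⟩ := list_unif (Bn (1 / 200000)) nodesC (nodes h1 h3 h4 h6 h7 h8 h10 h12 hε)
  refine ⟨n₀, fun n hn p hp2 hp6 f => ?_⟩
  have hs0 : 1 / 6 ≤ 1 / p := one_div_le_one_div_of_le (by linarith) hp6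
  have hs1 : 1 / p ≤ 1 / 2 := one_div_le_one_div_of_le (by norm_num) hp2
  obtain ⟨i, s₀, r₀, s₁, r₁, t, hi0, hi1, ht0, ht1, he, h01, hle⟩ := h5 (1 / p) hs0 hs1
  have m0 := List.mem_of_getElem? hi0
  have m1 := List.mem_of_getElem? hi1
  obtain ⟨a0, b0, c0⟩ := node_range _ m0
  obtain ⟨a1, b1, c1⟩ := node_range _ m1
  simp only at a0 b0 c0 a1 b1 c1
  exact between h9 h11 h13 hε (by linarith) h01 b0 c0 c1 (hn₀ n hn _ m0) (hn₀ n hn _ m1) ht0 ht1 hp2 he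
    (C := 1005 / 1000) (by
      calc (1 + 1 / 200000 : ℝ) * (r₀ ^ (1 - t) * r₁ ^ t * Real.exp (Real.log (s₀ / s₁) ^ 2 / 8)) ≤
          (1 + 1 / 200000) * (100499 / 100000) := by gcongr
        _ ≤ 1005 / 1000 := by norm_num) f

end Pool.Agent.H15PB.CFI
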