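import Pool.Agent.H78.PB.Stm5
import Pool.Agent.H15PB.CFI

set_option autoImplicit false

open MeasureTheory ENNReal Filter Topology

namespace Pool.Agent.H15PB.CFA

open Pool.Agent.N892.BW Pool.Agent.H78.PB Pool.Agent.H15PB.CFI

/-- the even exponents -/
theorem node_even (h1 : S_FUL) {m : ℕ} (hm : 2 ≤ m) {ε : ℝ} (hε : 0 < ε) :
    NC ε (1 / (2 * (m : ℝ)), 1) := by
  obtain ⟨n₀, hn₀⟩ := h1 m ε hm hε
  refine ⟨n₀, fun n hn f => ?_⟩
  have h := hn₀ n hn f
  simp only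
  rw [one_div_one_div, one_mul]
  exact h

theorem exp_bound {r L y c : ℝ} (hr : 1 ≤ r) (hL : 0 ≤ L) (h1 : r ≤ 1 + L + L ^ 2 / 2)
    (hy : L ^ 2 / 8 ≤ y) (hy1 : y < 1) (hc : 1 / (1 - y) ≤ c) :
    Real.exp (Real.log r ^ 2 / 8) ≤ c := by
  have h2 : Real.log r ≤ L := by
    rw [Real.log_le_iff_le_exp (by linarith)]
    exact h1.trans (Real.quadratic_le_exp_of_nonneg hL)
  have h3 : 0 ≤ Real.log r := Real.log_nonneg hr
  have h4 : Real.log r ^ 2 ≤ L ^ 2 := by gcongr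
  have h5 : Real.log r ^ 2 / 8 ≤ y := by linarith
  have h6 : 0 ≤ y := le_trans (by positivity) h5
  calc Real.exp (Real.log r ^ 2 / 8) ≤ Real.exp y := Real.exp_le_exp.2 h5
    _ ≤ 1 / (1 - y) := Real.exp_bound_div_one_sub_of_interval h6 hy1
    _ ≤ c := hc

/-- **CFA.** -/
theorem t (h : C_CFI) (h1 : S_FUL) (h2 : S_AMG) (h3 : S_HOE) (h4 : S_RTT) : C_CFA := by
  intro P
  obtain ⟨n₁, hn₁⟩ := h
  have hε : (0 : ℝ) < 1 / 200000 := by norm_num
  obtain ⟨n₂, hn₂⟩ := list_unif (fun (n : ℕ) (m : ℕ) => Bn (1 / 200000) n (1 / (2 * ((m + 2 : ℕ) : ℝ)), 1))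
    (List.range (⌈P⌉₊ + 2)) (fun m _ => node_even h1 (by omega) hε)
  refine ⟨max n₁ n₂, fun n hn p hp2 hpP f => ?_⟩
  by_cases h6 : p ≤ 6
  · have hc : cfac p = 1005 / 1000 := by
      unfold cfac
      rw [if_pos (Or.inl h6)]
    rw [hc]
    exact hn₁ n ((le_max_left _ _).trans hn) p hp2 h6 f
  push Not at h6
  obtain ⟨m, hm⟩ : ∃ m : ℕ, m = ⌊p / 2⌋₊ := ⟨_, rfl⟩
  have hm1 : (m : ℝ) ≤ p / 2 := by
    rw [hm]
    exact Nat.floor_le (by linarith)
  have hm2 : p / 2 < (m : ℝ) + 1 := by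
    rw [hm]
    exact Nat.lt_floor_add_one _
  have hm3 : 3 ≤ m := by
    rw [hm]
    refine Nat.le_floor ?_
    push_cast
    linarith
  have hm3' : (3 : ℝ) ≤ m := by exact_mod_cast hm3
  have hP : (m : ℝ) ≤ ⌈P⌉₊ := by
    have := Nat.le_ceil P
    linarith
  have hP' : m ≤ ⌈P⌉₊ := by exact_mod_cast hP
  have hb0 : Bn (1 / 200000) n (1 / (2 * (m : ℝ)), 1) := by
    have := hn₂ n ((le_max_right _ _).trans hn) (m - 2) (by
      rw [List.mem_range]
      omega)
    have e : m - 2 + 2 = m := by omega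
    simp only [e] at this
    exact this
  have hb1 : Bn (1 / 200000) n (1 / (2 * ((m : ℝ) + 1)), 1) := by
    have := hn₂ n ((le_max_right _ _).trans hn) (m - 1) (by
      rw [List.mem_range]
      omega)
    have e : m - 1 + 2 = m + 1 := by omega
    simp only [e] at this
    push_cast at this
    exact this
  have hm0 : (0 : ℝ) < m := by linarith
  have hp0 : 0 < p := by linarith
  -- the parameter of the interpolation
  obtain ⟨t, ht⟩ : ∃ t : ℝ, t = ((m : ℝ) + 1) * (p - 2 * m) / p := ⟨_, rfl⟩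
  have ht0 : 0 ≤ t := by
    rw [ht]
    apply div_nonneg _ hp0.le
    apply mul_nonneg (by linarith)
    linarith
  have ht1 : t ≤ 1 := by
    rw [ht, div_le_one hp0]
    nlinarith
  have he : 1 / p = (1 - t) * (1 / (2 * (m : ℝ))) + t * (1 / (2 * ((m : ℝ) + 1))) := by
    rw [ht]
    field_simp
    ring
  have h01 : 1 / (2 * ((m : ℝ) + 1)) < 1 / (2 * (m : ℝ)) := by
    apply one_div_lt_one_div_of_lt <;> linarith
  have hq : 1 / (2 * (m : ℝ)) / (1 / (2 * ((m : ℝ) + 1))) = ((m : ℝ) + 1) / m := by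
    field_simp
  have hr1 : 1 ≤ ((m : ℝ) + 1) / m := by
    rw [le_div_iff₀ hm0]
    linarith
  refine between h2 h3 h4 hε (by positivity) h01 ?_ one_pos one_pos hb0 hb1 ht0 ht1 hp2 he ?_ f
  · apply one_div_le_one_div_of_le (by norm_num)
    linarith
  rw [hq, Real.one_rpow, Real.one_rpow, one_mul, one_mul]
  by_cases h10 : 10 ≤ p
  · have hc : cfac p = 1005 / 1000 := by
      unfold cfac
      rw [if_pos (Or.inr h10)]
    rw [hc]
    have hm5 : 5 ≤ m := by
      rw [hm]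
      refine Nat.le_floor ?_
      push_cast
      linarith
    have hm5' : (5 : ℝ) ≤ m := by exact_mod_cast hm5
    have hE : Real.exp (Real.log (((m : ℝ) + 1) / m) ^ 2 / 8) ≤ 10043 / 10000 := by
      refine exp_bound hr1 (L := 1834 / 10000) (y := 0.0042045) (by norm_num) ?_ (by norm_num)
        (by norm_num) (by norm_num)
      rw [div_le_iff₀ hm0]
      nlinarith
    calc (1 + 1 / 200000 : ℝ) * Real.exp (Real.log (((m : ℝ) + 1) / m) ^ 2 / 8) ≤
        (1 + 1 / 200000) * (10043 / 10000) := by gcongr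
      _ ≤ 1005 / 1000 := by norm_num
  · have hc : cfac p = 1011 / 1000 := by
      unfold cfac
      rw [if_neg]
      push Not
      exact ⟨h6, not_le.1 h10⟩
    rw [hc]
    have hE : Real.exp (Real.log (((m : ℝ) + 1) / m) ^ 2 / 8) ≤ 10109 / 10000 := by
      refine exp_bound hr1 (L := 2925 / 10000) (y := 0.010695) (by norm_num) ?_ (by norm_num)
        (by norm_num) (by norm_num)
      rw [div_le_iff₀ hm0]
      nlinarith
    calc (1 + 1 / 200000 : ℝ) * Real.exp (Real.log (((m : ℝ) + 1) / m) ^ 2 / 8) ≤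
        (1 + 1 / 200000) * (10109 / 10000) := by gcongr
      _ ≤ 1011 / 1000 := by norm_num

end Pool.Agent.H15PB.CFA
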