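import Pool.Agent.H15PB.Interp2

set_option autoImplicit false

open MeasureTheory ENNReal Filter Topology Complex Set
open scoped ComplexConjugate

namespace Pool.Agent.H15PB

open Pool.Agent.N892.BW Pool.Agent.H78.PB

/-- the exponent `p` -/
noncomputable def pt (θ : ℝ) : ℝ := 4 / (2 - θ)

theorem pt_gt {θ : ℝ} (h0 : 0 < θ) (h1 : θ < 1) : 2 < pt θ := by
  unfold pt
  rw [lt_div_iff₀ (by linarith)]
  linarith

theorem pt_qt {θ : ℝ} (h0 : 0 < θ) (h1 : θ < 1) : (pt θ - 1) * qt θ = pt θ := by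
  unfold pt qt
  have : (2 - θ) ≠ 0 := by linarith
  have : (2 + θ) ≠ 0 := by linarith
  field_simp
  ring

theorem pt_qt2 {θ : ℝ} (h0 : 0 < θ) (h1 : θ < 1) : (1 - 1 / qt θ) * pt θ = 1 := by
  unfold pt qt
  have : (2 - θ) ≠ 0 := by linarith
  have : (2 + θ) ≠ 0 := by linarith
  field_simp
  ring

/-- the density -/
noncomputable def rh (θ : ℝ) (F : ℂ → ℂ) (u : ℂ) : ℝ := ‖F u‖ ^ pt θ * ‖u‖ ^ (2 * pt θ - 4)

/-- the phase -/
noncomputable def sg (F : ℂ → ℂ) (u : ℂ) : ℂ := F u / (‖F u‖ : ℂ)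

theorem adm {θ : ℝ} (h0 : 0 < θ) (h1 : θ < 1) {F : ℂ → ℂ} (hF : Nice F) {δ : ℝ} (hδ : 0 < δ)
    (hd : ∀ u, F u ≠ 0 → δ ≤ ‖u‖) : Adm (rh θ F) (sg F) := by
  obtain ⟨hm, ⟨M, hM⟩, ⟨R, hR⟩⟩ := hF
  have hp := pt_gt h0 h1
  have hne : ∀ u, rh θ F u ≠ 0 → F u ≠ 0 := by
    intro u hu h
    apply hu
    unfold rh
    rw [h, norm_zero, Real.zero_rpow (by linarith), zero_mul]
  have hle : ∀ u, F u ≠ 0 → ‖u‖ ≤ R := by
    intro u hu
    by_contra h
    exact hu (hR u (not_le.1 h))
  refine ⟨?_, ?_, ?_, ⟨|M| ^ pt θ * |R| ^ (2 * pt θ - 4), ?_⟩, ⟨δ, R, hδ, ?_⟩, ?_⟩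
  · unfold rh
    exact (hm.norm.pow_const _).mul (measurable_norm.pow_const _)
  · unfold sg
    exact hm.div (Complex.measurable_ofReal.comp hm.norm)
  · intro u
    unfold rh
    positivity
  · intro u
    by_cases h : F u = 0
    · unfold rh
      rw [h, norm_zero, Real.zero_rpow (by linarith), zero_mul]
      positivity
    · unfold rh
      have e1 : ‖F u‖ ≤ |M| := (hM u).trans (le_abs_self _)
      have e2 : ‖u‖ ≤ |R| := (hle u h).trans (le_abs_self _)
      have e3 : 0 ≤ 2 * pt θ - 4 := by linarith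
      exact mul_le_mul (Real.rpow_le_rpow (norm_nonneg _) e1 (by linarith))
        (Real.rpow_le_rpow (norm_nonneg _) e2 e3) (by positivity) (by positivity)
  · intro u hu
    exact ⟨hd u (hne u hu), hle u (hne u hu)⟩
  · intro u
    unfold sg
    rw [norm_div, Complex.norm_real, norm_norm]
    exact div_self_le_one _

theorem FZ_self {θ : ℝ} (h0 : 0 < θ) (h1 : θ < 1) {F : ℂ → ℂ} {δ : ℝ} (hδ : 0 < δ)
    (hd : ∀ u, F u ≠ 0 → δ ≤ ‖u‖) : FZ (rh θ F) (sg F) (θ : ℂ) = F := by
  classical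
  have hp := pt_gt h0 h1
  funext u
  by_cases hF : F u = 0
  · have : rh θ F u = 0 := by
      unfold rh
      rw [hF, norm_zero, Real.zero_rpow (by linarith), zero_mul]
    simp [FZ, this, hF]
  · have hu : 0 < ‖u‖ := hδ.trans_le (hd u hF)
    have hu0 : u ≠ 0 := norm_pos_iff.1 hu
    have hn : 0 < ‖F u‖ := norm_pos_iff.2 hF
    have hr : 0 < rh θ F u := by unfold rh; positivity
    have hcond : ¬ (rh θ F u = 0 ∨ u = 0) := by
      push Not
      exact ⟨hr.ne', hu0⟩
    simp only [FZ, if_neg hcond]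
    have e1 : (((rh θ F u : ℝ)) : ℂ) ^ ((1 : ℂ) / 2 - (θ : ℂ) / 4) =
        (((rh θ F u) ^ (1 / 2 - θ / 4) : ℝ) : ℂ) := by
      rw [Complex.ofReal_cpow hr.le]
      push_cast
      rfl
    have e2 : ((‖u‖ : ℝ) : ℂ) ^ (-(θ : ℂ)) = ((‖u‖ ^ (-θ) : ℝ) : ℂ) := by
      rw [Complex.ofReal_cpow hu.le]
      push_cast
      rfl
    have e3 : (rh θ F u) ^ (1 / 2 - θ / 4) = ‖F u‖ * ‖u‖ ^ θ := by
      unfold rh
      rw [Real.mul_rpow (by positivity) (by positivity), ← Real.rpow_mul hn.le, ← Real.rpow_mul hu.le]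
      have a1 : pt θ * (1 / 2 - θ / 4) = 1 := by
        unfold pt
        have : (2 - θ) ≠ 0 := by linarith
        field_simp
        ring
      have a2 : (2 * pt θ - 4) * (1 / 2 - θ / 4) = θ := by
        unfold pt
        have : (2 - θ) ≠ 0 := by linarith
        field_simp
        ring
      rw [a1, a2, Real.rpow_one]
    rw [e1, e2, e3, sg, ← Complex.ofReal_mul]
    have e4 : ‖F u‖ * ‖u‖ ^ θ * ‖u‖ ^ (-θ) = ‖F u‖ := by
      rw [mul_assoc, ← Real.rpow_add hu]
      simp
    rw [e4]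
    have : ((‖F u‖ : ℝ) : ℂ) ≠ 0 := by exact_mod_cast hn.ne'
    field_simp

theorem gz_self {θ : ℝ} (h0 : 0 < θ) (g : ℂ → ℂ) (x : ℂ) : gz θ g (θ : ℂ) x = g x := by
  classical
  by_cases h : g x = 0
  · rw [gz_zero _ _ h, h]
  · simp only [gz, if_neg h]
    have hn : 0 < ‖g x‖ := norm_pos_iff.2 h
    have e : (qt θ : ℂ) * (1 / 2 + (θ : ℂ) / 4) = 1 := by
      have h5 : qt θ * (1 / 2 + θ / 4) = 1 := by
        unfold qt
        have : (2 + θ) ≠ 0 := by linarith
        field_simp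
        ring
      have h6 := congrArg (fun t : ℝ => (t : ℂ)) h5
      push_cast at h6
      exact h6
    rw [e, Complex.cpow_one]
    have : ((‖g x‖ : ℝ) : ℂ) ≠ 0 := by exact_mod_cast hn.ne'
    field_simp

theorem Phi_self {θ : ℝ} (h0 : 0 < θ) (h1 : θ < 1) {F : ℂ → ℂ} {δ : ℝ} (hδ : 0 < δ)
    (hd : ∀ u, F u ≠ 0 → δ ≤ ‖u‖) (g : ℂ → ℂ) :
    Phi θ (rh θ F) (sg F) g θ = ∫ x, hat F x * g x := by
  unfold Phi
  rw [FZ_self h0 h1 hδ hd]
  refine integral_congr_ae (Eventually.of_forall fun x => ?_)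
  simp only
  rw [gz_self h0]

theorem hat_bd {F : ℂ → ℂ} (x : ℂ) : ‖hat F x‖ ≤ ∫ u, ‖F u‖ := by
  unfold hat
  refine (norm_integral_le_integral_norm _).trans (le_of_eq ?_)
  refine integral_congr_ae (Eventually.of_forall fun u => ?_)
  simp only
  rw [norm_mul, ex_norm, mul_one]

/-- duality on a ball -/
theorem dual {θ : ℝ} (h0 : 0 < θ) (h1 : θ < 1) (hK : P_KRN) (h2 : P_POI) (h3 : P_MOM) (h4 : P_KEA)
    (h5 : P_KEB) (h6 : P_CRZ) {F : ℂ → ℂ} (hF : Nice F) {δ : ℝ} (hδ : 0 < δ)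
    (hd : ∀ u, F u ≠ 0 → δ ≤ ‖u‖) {R : ℝ} (hR : 0 < R)
    (hRe : ∫⁻ u, ENNReal.ofReal (rh θ F u) = ENNReal.ofReal R) (r : ℝ) :
    ∫⁻ x in Metric.closedBall (0 : ℂ) r, ‖hat F x‖ₑ ^ pt θ ≤
      ENNReal.ofReal (4 * Real.pi ^ pt θ * KK θ ^ pt θ * R) := by
  classical
  have hA := adm h0 h1 hF hδ hd
  have hp := pt_gt h0 h1
  have hq := qt_pos h0
  have hhm : Measurable (hat F) := hat_meas hF.1
  set L := ∫ u, ‖F u‖ with hL
  have hL0 : 0 ≤ L := integral_nonneg fun u => norm_nonneg _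
  set A := ∫⁻ x in Metric.closedBall (0 : ℂ) r, ‖hat F x‖ₑ ^ pt θ with hAdef
  have hAtop : A < ⊤ := by
    calc A ≤ ∫⁻ x in Metric.closedBall (0 : ℂ) r, ENNReal.ofReal (L ^ pt θ) := by
          refine lintegral_mono fun x => ?_
          rw [← ofReal_norm, ENNReal.ofReal_rpow_of_nonneg (norm_nonneg _) (by linarith)]
          exact ENNReal.ofReal_le_ofReal (Real.rpow_le_rpow (norm_nonneg _) (hat_bd x) (by linarith))
      _ < ⊤ := by
          rw [setLIntegral_const]
          exact ENNReal.mul_lt_top ENNReal.ofReal_lt_top measure_closedBall_lt_top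
  by_cases hA0 : A = 0
  · rw [hA0]
    exact zero_le
  have ha : 0 < A.toReal := ENNReal.toReal_pos hA0 hAtop.ne
  set a := A.toReal with hadef
  have hAa : A = ENNReal.ofReal a := (ENNReal.ofReal_toReal hAtop.ne).symm
  set s := a ^ (-(1 / qt θ)) with hs
  have hs0 : 0 < s := Real.rpow_pos_of_pos ha _
  set g : ℂ → ℂ := fun x => (Metric.closedBall (0 : ℂ) r).indicator
    (fun x => ((s * ‖hat F x‖ ^ (pt θ - 2) : ℝ) : ℂ) * conj (hat F x)) x with hg
  have hgm : Measurable g := by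
    apply Measurable.indicator _ Metric.isClosed_closedBall.measurableSet
    have e1 : Measurable fun x => ((s * ‖hat F x‖ ^ (pt θ - 2) : ℝ) : ℂ) :=
      Complex.measurable_ofReal.comp ((hhm.norm.pow_const _).const_mul _)
    exact e1.mul (Complex.continuous_conj.measurable.comp hhm)
  have hgn : ∀ x, ‖g x‖ = (Metric.closedBall (0 : ℂ) r).indicator
      (fun x => s * ‖hat F x‖ ^ (pt θ - 1)) x := by
    intro x
    by_cases hx : x ∈ Metric.closedBall (0 : ℂ) r
    · rw [hg]
      simp only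
      rw [indicator_of_mem hx, indicator_of_mem hx, norm_mul, Complex.norm_real, Complex.norm_conj,
        Real.norm_eq_abs, abs_of_nonneg (by positivity), mul_assoc]
      congr 1
      by_cases h : hat F x = 0
      · rw [h, norm_zero, Real.zero_rpow (by linarith), Real.zero_rpow (by linarith), zero_mul]
      · have hn : 0 < ‖hat F x‖ := norm_pos_iff.2 h
        nth_rewrite 2 [← Real.rpow_one ‖hat F x‖]
        rw [← Real.rpow_add hn]
        congr 1
        ring
    · rw [hg]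
      simp only
      rw [indicator_of_notMem hx, indicator_of_notMem hx, norm_zero]
  have hgN : Nice g := by
    refine ⟨hgm, ⟨s * L ^ (pt θ - 1), fun x => ?_⟩, ⟨r, fun x hx => ?_⟩⟩
    · rw [hgn]
      by_cases hx : x ∈ Metric.closedBall (0 : ℂ) r
      · rw [indicator_of_mem hx]
        have := Real.rpow_le_rpow (norm_nonneg _) (hat_bd (F := F) x) (by linarith : 0 ≤ pt θ - 1)
        gcongr
      · rw [indicator_of_notMem hx]
        positivity
    · rw [hg]
      simp only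
      rw [indicator_of_notMem]
      rw [mem_closedBall_zero_iff, not_le]
      exact hx
  have hg1 : ∫⁻ x, ‖g x‖ₑ ^ (qt θ) ≤ 1 := by
    have e1 : ∀ x, ‖g x‖ₑ ^ (qt θ) = (Metric.closedBall (0 : ℂ) r).indicator
        (fun x => ENNReal.ofReal (s ^ qt θ) * ‖hat F x‖ₑ ^ pt θ) x := by
      intro x
      rw [← ofReal_norm, hgn]
      by_cases hx : x ∈ Metric.closedBall (0 : ℂ) r
      · rw [indicator_of_mem hx, indicator_of_mem hx, ENNReal.ofReal_rpow_of_nonneg (by positivity) hq.le,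
          Real.mul_rpow hs0.le (by positivity), ← Real.rpow_mul (norm_nonneg _), pt_qt h0 h1,
          ENNReal.ofReal_mul (by positivity), ← ofReal_norm, ENNReal.ofReal_rpow_of_nonneg (norm_nonneg _)
            (by linarith)]
      · rw [indicator_of_notMem hx, indicator_of_notMem hx, ENNReal.ofReal_zero,
          ENNReal.zero_rpow_of_pos hq]
    simp only [e1]
    rw [lintegral_indicator Metric.isClosed_closedBall.measurableSet,
      lintegral_const_mul' _ _ ENNReal.ofReal_ne_top, ← hAdef, hAa, ← ENNReal.ofReal_mul (by positivity),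
      ← ENNReal.ofReal_one]
    apply ENNReal.ofReal_le_ofReal
    rw [hs, ← Real.rpow_mul ha.le]
    have : -(1 / qt θ) * qt θ = -1 := by field_simp
    rw [this, Real.rpow_neg_one, inv_mul_cancel₀ ha.ne']
  have hmain := interp h0 h1 hK h2 h3 h4 h5 h6 hA hgN hg1 hR hRe
  rw [Phi_self h0 h1 hδ hd] at hmain
  have hint : ∫ x, hat F x * g x = ((s * a : ℝ) : ℂ) := by
    have e1 : ∀ x, hat F x * g x = (((Metric.closedBall (0 : ℂ) r).indicator
        (fun x => s * ‖hat F x‖ ^ pt θ) x : ℝ) : ℂ) := by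
      intro x
      by_cases hx : x ∈ Metric.closedBall (0 : ℂ) r
      · rw [hg]
        simp only
        rw [indicator_of_mem hx, indicator_of_mem hx]
        have e2 : hat F x * (((s * ‖hat F x‖ ^ (pt θ - 2) : ℝ) : ℂ) * conj (hat F x)) =
            ((s * ‖hat F x‖ ^ (pt θ - 2) : ℝ) : ℂ) * (hat F x * conj (hat F x)) := by ring
        rw [e2, Complex.mul_conj, ← Complex.ofReal_mul, Complex.normSq_eq_norm_sq]
        congr 1
        rw [mul_assoc]
        congr 1
        by_cases h : hat F x = 0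
        · rw [h, norm_zero, Real.zero_rpow (by linarith), Real.zero_rpow (by linarith), zero_mul]
        · have hn : 0 < ‖hat F x‖ := norm_pos_iff.2 h
          rw [← Real.rpow_two, ← Real.rpow_add hn]
          congr 1
          ring
      · rw [hg]
        simp only
        rw [indicator_of_notMem hx, indicator_of_notMem hx]
        simp
    simp only [e1]
    rw [integral_complex_ofReal]
    congr 1
    rw [integral_indicator Metric.isClosed_closedBall.measurableSet, integral_const_mul]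
    congr 1
    rw [integral_eq_lintegral_of_nonneg_ae]
    · rw [hadef, hAdef]
      congr 1
      refine lintegral_congr fun x => ?_
      rw [← ofReal_norm, ENNReal.ofReal_rpow_of_nonneg (norm_nonneg _) (by linarith)]
    · refine Eventually.of_forall fun x => ?_
      simp only [Pi.zero_apply]
      positivity
    · exact (hhm.norm.pow_const _).aestronglyMeasurable
  rw [hint, Complex.norm_real, Real.norm_eq_abs, abs_of_pos (by positivity)] at hmain
  have e3 : s * a = a ^ (1 - 1 / qt θ) := by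
    rw [hs]
    nth_rewrite 2 [← Real.rpow_one a]
    rw [← Real.rpow_add ha]
    congr 1
    ring
  have e4 : (s * a) ^ (4 / (2 - θ)) = a := by
    rw [e3, ← Real.rpow_mul ha.le]
    have := pt_qt2 h0 h1
    unfold pt at this
    rw [this, Real.rpow_one]
  rw [e4] at hmain
  rw [hAa]
  exact ENNReal.ofReal_le_ofReal hmain

end Pool.Agent.H15PB
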