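import Pool.Agent.H15PB.Phi

set_option autoImplicit false

open MeasureTheory ENNReal Filter Topology Complex Set
open scoped ComplexConjugate

namespace Pool.Agent.H15PB

open Pool.Agent.N892.BW Pool.Agent.H78.PB

theorem hat_meas {F : ℂ → ℂ} (hF : Measurable F) : Measurable (hat F) := by
  unfold hat
  have h1 : Measurable fun p : ℂ × ℂ => F p.2 * ex p.2 p.1 :=
    (hF.comp measurable_snd).mul (ex_meas.comp (measurable_snd.prodMk measurable_fst))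
  exact h1.stronglyMeasurable.integral_prod_right'.measurable

theorem hat_neg (F : ℂ → ℂ) (x : ℂ) : hat F x = ∫ u, F u * ex (-x) u := by
  unfold hat
  refine integral_congr_ae (Eventually.of_forall fun u => ?_)
  simp only [ex]
  congr 3
  simp only [Complex.mul_im, Complex.conj_re, Complex.conj_im, Complex.neg_re, Complex.neg_im]
  congr 1
  ring

theorem planch {F : ℂ → ℂ} (hF : Nice F) :
    ∫⁻ x, ‖hat F x‖ₑ ^ (2 : ℕ) ≤ ENNReal.ofReal ((2 * Real.pi) ^ 2) * ∫⁻ u, ‖F u‖ₑ ^ (2 : ℕ) := by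
  have h := FOUR.t 1 le_rfl F hF
  have e : ∫⁻ x, ‖hat F x‖ₑ ^ (2 : ℕ) = ∫⁻ x, ‖∫ u, F u * ex x u‖ₑ ^ (2 * 1) := by
    rw [← lintegral_neg_eq_self (fun x => ‖∫ u, F u * ex x u‖ₑ ^ (2 * 1))]
    refine lintegral_congr fun x => ?_
    rw [hat_neg]
  rw [e]
  simpa [it] using h

theorem FZ_meas {ρ : ℂ → ℝ} {σ : ℂ → ℂ} (hA : Adm ρ σ) (z : ℂ) : Measurable (FZ ρ σ z) := by
  have h : FZ ρ σ z = fun u => cu ρ σ u *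
      Complex.exp ((la ρ u : ℂ) * (1 / 2 - z / 4) - (lu ρ u : ℂ) * z) := by
    funext u
    exact FZ_eq ρ σ hA.2.2.1 z u
  rw [h]
  have m1 := cu_meas hA.1 hA.2.1
  have m2 := la_meas hA.1
  have m3 := lu_meas hA.1
  fun_prop

theorem FZ_nice {ρ : ℂ → ℝ} {σ : ℂ → ℂ} (hA : Adm ρ σ) (z : ℂ) (h1 : 0 ≤ z.re) (h2 : z.re ≤ 1) :
    Nice (FZ ρ σ z) := by
  have hz0 : Nice (fun _ : ℂ => (0 : ℂ)) := ⟨measurable_const, ⟨0, by simp⟩, ⟨0, by simp⟩⟩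
  obtain ⟨K, hK0, hK⟩ := K_bound (θ := 1) one_pos hA hz0
  obtain ⟨δ, R0, hδ, hR⟩ := hA.2.2.2.2.1
  refine ⟨FZ_meas hA z, ⟨K, fun u => ?_⟩, ⟨R0, fun u hu => FZ_zero (fun u hu => (hR u hu).2) z u hu⟩⟩
  rw [FZ_eq ρ σ hA.2.2.1, norm_mul, Complex.norm_exp]
  calc ‖cu ρ σ u‖ * Real.exp ((la ρ u : ℂ) * (1 / 2 - z / 4) - (lu ρ u : ℂ) * z).re
      ≤ 1 * K := by
        apply mul_le_mul (cu_norm hA.2.2.2.2.2 u) _ (Real.exp_pos _).le zero_le_one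
        have := hK (0, u) z.re (by linarith) (by linarith)
        refine le_trans (le_of_eq ?_) this
        congr 1
        simp [ca, cb, lg]
        ring
    _ = K := one_mul _

theorem gz_enorm {θ : ℝ} (hθ : 0 < θ) (g : ℂ → ℂ) (z x : ℂ) (hz : 0 ≤ z.re) :
    ‖gz θ g z x‖ₑ = ‖g x‖ₑ ^ (qt θ * (1 / 2 + z.re / 4)) := by
  classical
  have hq := qt_pos hθ
  have he : 0 < qt θ * (1 / 2 + z.re / 4) := by positivity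
  by_cases h : g x = 0
  · rw [gz_zero z x h, h, enorm_zero, ENNReal.zero_rpow_of_pos he]
  · simp only [gz, if_neg h]
    have hn : 0 < ‖g x‖ := norm_pos_iff.2 h
    rw [← ofReal_norm, ← ofReal_norm, norm_mul, norm_div, Complex.norm_real, norm_norm,
      div_self hn.ne', mul_one, Complex.norm_cpow_eq_rpow_re_of_pos hn, ENNReal.ofReal_rpow_of_pos hn]
    congr 2
    simp

theorem gz_meas {θ : ℝ} {g : ℂ → ℂ} (hg : Measurable g) (z : ℂ) : Measurable (gz θ g z) := by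
  have h : gz θ g z = fun x => cg g x * Complex.exp ((lg g x : ℂ) * ((qt θ : ℂ) * (1 / 2 + z / 4))) := by
    funext x
    exact gz_eq θ g z x
  rw [h]
  have m1 := cg_meas hg
  have m2 := lg_meas hg
  fun_prop

theorem FZ_enorm0 {ρ : ℂ → ℝ} {σ : ℂ → ℂ} (hA : Adm ρ σ) (y : ℝ) (u : ℂ) :
    ‖FZ ρ σ ((y : ℂ) * I) u‖ₑ ^ (2 : ℕ) ≤ ENNReal.ofReal (ρ u) := by
  classical
  by_cases h : ρ u = 0 ∨ u = 0
  · simp [FZ, h]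
  · simp only [FZ, if_neg h]
    push Not at h
    have h1 : 0 < ρ u := lt_of_le_of_ne (hA.2.2.1 u) (Ne.symm h.1)
    have h2 : 0 < ‖u‖ := norm_pos_iff.2 h.2
    rw [← ofReal_norm, ← ENNReal.ofReal_pow (norm_nonneg _)]
    apply ENNReal.ofReal_le_ofReal
    rw [norm_mul, norm_mul, Complex.norm_cpow_eq_rpow_re_of_pos h1, Complex.norm_cpow_eq_rpow_re_of_pos h2]
    have e1 : ((1 : ℂ) / 2 - (y : ℂ) * I / 4).re = 1 / 2 := by simp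
    have e2 : (-((y : ℂ) * I)).re = 0 := by simp
    rw [e1, e2, Real.rpow_zero, mul_one]
    have h3 := hA.2.2.2.2.2 u
    calc (ρ u ^ (1 / 2 : ℝ) * ‖σ u‖) ^ 2 ≤ (ρ u ^ (1 / 2 : ℝ) * 1) ^ 2 := by gcongr
      _ = ρ u := by
        rw [mul_one, ← Real.sqrt_eq_rpow, Real.sq_sqrt h1.le]

theorem Phi_le {θ : ℝ} {ρ : ℂ → ℝ} {σ g : ℂ → ℂ} (z : ℂ) :
    ‖Phi θ ρ σ g z‖ₑ ≤ ∫⁻ x, ‖hat (FZ ρ σ z) x‖ₑ * ‖gz θ g z x‖ₑ := by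
  unfold Phi
  refine (enorm_integral_le_lintegral_enorm _).trans (le_of_eq ?_)
  refine lintegral_congr fun x => ?_
  rw [enorm_mul]

/-- the edge `Re z = 0` -/
theorem edge0 {θ : ℝ} (hθ : 0 < θ) {ρ : ℂ → ℝ} {σ : ℂ → ℂ} (hA : Adm ρ σ) {g : ℂ → ℂ} (hg : Nice g)
    (hg1 : ∫⁻ x, ‖g x‖ₑ ^ (qt θ) ≤ 1) (y : ℝ) :
    ‖Phi θ ρ σ g ((y : ℂ) * I)‖ₑ ^ (2 : ℕ) ≤
      ENNReal.ofReal ((2 * Real.pi) ^ 2) * ∫⁻ u, ENNReal.ofReal (ρ u) := by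
  have hre : ((y : ℂ) * I).re = 0 := by simp
  have hm1 : Measurable (hat (FZ ρ σ ((y : ℂ) * I))) := hat_meas (FZ_meas hA _)
  have hm2 : Measurable (gz θ g ((y : ℂ) * I)) := gz_meas hg.1 _
  have h1 := ENNReal.lintegral_mul_le_Lp_mul_Lq volume (p := 2) (q := 2) Real.HolderConjugate.two_two
    hm1.enorm.aemeasurable hm2.enorm.aemeasurable
  have h2 := (Phi_le (θ := θ) (ρ := ρ) (σ := σ) (g := g) ((y : ℂ) * I)).trans h1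
  have h3 : ∫⁻ x, ‖gz θ g ((y : ℂ) * I) x‖ₑ ^ (2 : ℝ) ≤ 1 := by
    refine le_trans (le_of_eq ?_) hg1
    refine lintegral_congr fun x => ?_
    rw [gz_enorm hθ g _ x (by rw [hre]), hre, ← ENNReal.rpow_mul]
    congr 1
    ring
  have h4 : (∫⁻ x, ‖gz θ g ((y : ℂ) * I) x‖ₑ ^ (2 : ℝ)) ^ (1 / (2 : ℝ)) ≤ 1 := by
    calc _ ≤ (1 : ℝ≥0∞) ^ (1 / (2 : ℝ)) := ENNReal.rpow_le_rpow h3 (by norm_num)
      _ = 1 := ENNReal.one_rpow _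
  have h5 : ‖Phi θ ρ σ g ((y : ℂ) * I)‖ₑ ≤
      (∫⁻ x, ‖hat (FZ ρ σ ((y : ℂ) * I)) x‖ₑ ^ (2 : ℝ)) ^ (1 / (2 : ℝ)) := by
    refine h2.trans ?_
    calc _ ≤ (∫⁻ x, ‖hat (FZ ρ σ ((y : ℂ) * I)) x‖ₑ ^ (2 : ℝ)) ^ (1 / (2 : ℝ)) * 1 := by
          gcongr
      _ = _ := mul_one _
  calc ‖Phi θ ρ σ g ((y : ℂ) * I)‖ₑ ^ (2 : ℕ) ≤
      ((∫⁻ x, ‖hat (FZ ρ σ ((y : ℂ) * I)) x‖ₑ ^ (2 : ℝ)) ^ (1 / (2 : ℝ))) ^ (2 : ℕ) := by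
        gcongr
    _ = ∫⁻ x, ‖hat (FZ ρ σ ((y : ℂ) * I)) x‖ₑ ^ (2 : ℕ) := by
        rw [← ENNReal.rpow_natCast, ← ENNReal.rpow_mul]
        norm_num
    _ ≤ ENNReal.ofReal ((2 * Real.pi) ^ 2) * ∫⁻ u, ‖FZ ρ σ ((y : ℂ) * I) u‖ₑ ^ (2 : ℕ) :=
        planch (FZ_nice hA _ (by rw [hre]) (by rw [hre]; norm_num))
    _ ≤ _ := by
        gcongr with u
        exact FZ_enorm0 hA y u

/-- the edge `Re z = 1` -/
theorem edge1 {θ : ℝ} (hθ : 0 < θ) {ρ : ℂ → ℝ} {σ : ℂ → ℂ} (hA : Adm ρ σ) {g : ℂ → ℂ} (hg : Nice g)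
    (hg1 : ∫⁻ x, ‖g x‖ₑ ^ (qt θ) ≤ 1) (y : ℝ) :
    ‖Phi θ ρ σ g (1 + (y : ℂ) * I)‖ₑ ^ (4 : ℕ) ≤
      ∫⁻ x, ‖hat (FZ ρ σ (1 + (y : ℂ) * I)) x‖ₑ ^ (4 : ℕ) := by
  have hre : (1 + (y : ℂ) * I).re = 1 := by simp
  have hm1 : Measurable (hat (FZ ρ σ (1 + (y : ℂ) * I))) := hat_meas (FZ_meas hA _)
  have hm2 : Measurable (gz θ g (1 + (y : ℂ) * I)) := gz_meas hg.1 _
  have hc : Real.HolderConjugate 4 (4 / 3) := by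
    rw [Real.holderConjugate_iff]
    norm_num
  have h1 := ENNReal.lintegral_mul_le_Lp_mul_Lq volume (p := 4) (q := 4 / 3) hc
    hm1.enorm.aemeasurable hm2.enorm.aemeasurable
  have h2 := (Phi_le (θ := θ) (ρ := ρ) (σ := σ) (g := g) (1 + (y : ℂ) * I)).trans h1
  have h3 : ∫⁻ x, ‖gz θ g (1 + (y : ℂ) * I) x‖ₑ ^ (4 / 3 : ℝ) ≤ 1 := by
    refine le_trans (le_of_eq ?_) hg1
    refine lintegral_congr fun x => ?_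
    rw [gz_enorm hθ g _ x (by rw [hre]; norm_num), hre, ← ENNReal.rpow_mul]
    congr 1
    ring
  have h4 : (∫⁻ x, ‖gz θ g (1 + (y : ℂ) * I) x‖ₑ ^ (4 / 3 : ℝ)) ^ (1 / (4 / 3 : ℝ)) ≤ 1 := by
    calc _ ≤ (1 : ℝ≥0∞) ^ (1 / (4 / 3 : ℝ)) := ENNReal.rpow_le_rpow h3 (by norm_num)
      _ = 1 := ENNReal.one_rpow _
  have h5 : ‖Phi θ ρ σ g (1 + (y : ℂ) * I)‖ₑ ≤
      (∫⁻ x, ‖hat (FZ ρ σ (1 + (y : ℂ) * I)) x‖ₑ ^ (4 : ℝ)) ^ (1 / (4 : ℝ)) := by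
    refine h2.trans ?_
    calc _ ≤ (∫⁻ x, ‖hat (FZ ρ σ (1 + (y : ℂ) * I)) x‖ₑ ^ (4 : ℝ)) ^ (1 / (4 : ℝ)) * 1 := by
          gcongr
      _ = _ := mul_one _
  calc ‖Phi θ ρ σ g (1 + (y : ℂ) * I)‖ₑ ^ (4 : ℕ) ≤
      ((∫⁻ x, ‖hat (FZ ρ σ (1 + (y : ℂ) * I)) x‖ₑ ^ (4 : ℝ)) ^ (1 / (4 : ℝ))) ^ (4 : ℕ) := by
        gcongr
    _ = ∫⁻ x, ‖hat (FZ ρ σ (1 + (y : ℂ) * I)) x‖ₑ ^ (4 : ℕ) := by
        rw [← ENNReal.rpow_natCast, ← ENNReal.rpow_mul]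
        norm_num

end Pool.Agent.H15PB
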