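import Pool.Agent.H15PB.Ana
import Pool.Agent.H78.PB.Stm2
import Pool.Agent.N892.BW.FOUR

set_option autoImplicit false

open MeasureTheory ENNReal Filter Topology Complex Set
open scoped ComplexConjugate

namespace Pool.Agent.H15PB

open Pool.Agent.N892.BW Pool.Agent.H78.PB

theorem ex_norm (x v : ℂ) : ‖ex x v‖ = 1 := by
  rw [ex, mul_comm, Complex.norm_exp_ofReal_mul_I]

theorem ex_cont : Continuous fun w : ℂ × ℂ => ex w.1 w.2 := by
  unfold ex
  fun_prop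

theorem ex_meas : Measurable fun w : ℂ × ℂ => ex w.1 w.2 := ex_cont.measurable

/-- the dual exponent -/
noncomputable def qt (θ : ℝ) : ℝ := 4 / (2 + θ)

/-- the dual analytic family -/
noncomputable def gz (θ : ℝ) (g : ℂ → ℂ) (z x : ℂ) : ℂ :=
  open Classical in
  if g x = 0 then 0 else ((‖g x‖ : ℝ) : ℂ) ^ ((qt θ : ℂ) * (1 / 2 + z / 4)) * (g x / (‖g x‖ : ℂ))

/-- log of the density -/
noncomputable def la (ρ : ℂ → ℝ) (u : ℂ) : ℝ := open Classical in
  if ρ u = 0 ∨ u = 0 then 0 else Real.log (ρ u)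

/-- log of the modulus -/
noncomputable def lu (ρ : ℂ → ℝ) (u : ℂ) : ℝ := open Classical in
  if ρ u = 0 ∨ u = 0 then 0 else Real.log ‖u‖

/-- phase -/
noncomputable def cu (ρ : ℂ → ℝ) (σ : ℂ → ℂ) (u : ℂ) : ℂ := open Classical in
  if ρ u = 0 ∨ u = 0 then 0 else σ u

/-- log of the modulus of `g` -/
noncomputable def lg (g : ℂ → ℂ) (x : ℂ) : ℝ := Real.log ‖g x‖

/-- phase of `g` -/
noncomputable def cg (g : ℂ → ℂ) (x : ℂ) : ℂ := g x / (‖g x‖ : ℂ)

theorem mset {ρ : ℂ → ℝ} (h : Measurable ρ) : MeasurableSet {u : ℂ | ρ u = 0 ∨ u = 0} := by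
  have e1 : MeasurableSet {u : ℂ | ρ u = 0} := h (measurableSet_singleton 0)
  have e2 : MeasurableSet {u : ℂ | u = 0} := measurableSet_eq
  exact e1.union e2

theorem la_meas {ρ : ℂ → ℝ} (h : Measurable ρ) : Measurable (la ρ) := by
  classical
  exact Measurable.ite (mset h) measurable_const (Real.measurable_log.comp h)

theorem lu_meas {ρ : ℂ → ℝ} (h : Measurable ρ) : Measurable (lu ρ) := by
  classical
  exact Measurable.ite (mset h) measurable_const (Real.measurable_log.comp measurable_norm)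

theorem cu_meas {ρ : ℂ → ℝ} (h : Measurable ρ) {σ : ℂ → ℂ} (hσ : Measurable σ) :
    Measurable (cu ρ σ) := by
  classical
  exact Measurable.ite (mset h) measurable_const hσ

theorem lg_meas {g : ℂ → ℂ} (h : Measurable g) : Measurable (lg g) :=
  Real.measurable_log.comp h.norm

theorem cg_meas {g : ℂ → ℂ} (h : Measurable g) : Measurable (cg g) := by
  unfold cg
  exact h.div (Complex.measurable_ofReal.comp h.norm)

theorem cg_norm (g : ℂ → ℂ) (x : ℂ) : ‖cg g x‖ ≤ 1 := by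
  unfold cg
  rw [norm_div, Complex.norm_real, norm_norm]
  exact div_self_le_one _

theorem cu_norm {ρ : ℂ → ℝ} {σ : ℂ → ℂ} (hσ : ∀ u, ‖σ u‖ ≤ 1) (u : ℂ) : ‖cu ρ σ u‖ ≤ 1 := by
  unfold cu
  split_ifs
  · simp
  · exact hσ u

theorem cpow_exp {r : ℝ} (hr : 0 < r) (s : ℂ) : ((r : ℝ) : ℂ) ^ s = Complex.exp ((Real.log r : ℂ) * s) := by
  rw [Complex.cpow_def_of_ne_zero (by exact_mod_cast hr.ne'), Complex.ofReal_log hr.le]

theorem FZ_eq (ρ : ℂ → ℝ) (σ : ℂ → ℂ) (h0 : ∀ u, 0 ≤ ρ u) (z u : ℂ) :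
    FZ ρ σ z u = cu ρ σ u * Complex.exp ((la ρ u : ℂ) * (1 / 2 - z / 4) - (lu ρ u : ℂ) * z) := by
  classical
  by_cases h : ρ u = 0 ∨ u = 0
  · simp only [FZ, cu, if_pos h, zero_mul]
  · simp only [FZ, cu, la, lu, if_neg h]
    push Not at h
    have h1 : 0 < ρ u := lt_of_le_of_ne (h0 u) (Ne.symm h.1)
    have h2 : 0 < ‖u‖ := norm_pos_iff.2 h.2
    rw [cpow_exp h1, cpow_exp h2, ← Complex.exp_add, mul_comm]
    congr 2
    ring

theorem gz_eq (θ : ℝ) (g : ℂ → ℂ) (z x : ℂ) :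
    gz θ g z x = cg g x * Complex.exp ((lg g x : ℂ) * ((qt θ : ℂ) * (1 / 2 + z / 4))) := by
  classical
  by_cases h : g x = 0
  · simp only [gz, cg, if_pos h]
    rw [h]
    simp
  · simp only [gz, cg, lg, if_neg h]
    rw [cpow_exp (norm_pos_iff.2 h), mul_comm]

/-- the coefficients on the product -/
noncomputable def ca (θ : ℝ) (ρ : ℂ → ℝ) (g : ℂ → ℂ) (w : ℂ × ℂ) : ℝ :=
  1 / 2 * la ρ w.2 + qt θ / 2 * lg g w.1

/-- the coefficients on the product -/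
noncomputable def cb (θ : ℝ) (ρ : ℂ → ℝ) (g : ℂ → ℂ) (w : ℂ × ℂ) : ℝ :=
  -(1 / 4) * la ρ w.2 - lu ρ w.2 + qt θ / 4 * lg g w.1

/-- the coefficients on the product -/
noncomputable def cc (ρ : ℂ → ℝ) (σ g : ℂ → ℂ) (w : ℂ × ℂ) : ℂ :=
  cu ρ σ w.2 * ex w.2 w.1 * cg g w.1

theorem prod_eq (θ : ℝ) (ρ : ℂ → ℝ) (σ g : ℂ → ℂ) (h0 : ∀ u, 0 ≤ ρ u) (z x u : ℂ) :
    FZ ρ σ z u * ex u x * gz θ g z x =
      cc ρ σ g (x, u) * Complex.exp ((ca θ ρ g (x, u) : ℂ) + z * (cb θ ρ g (x, u) : ℂ)) := by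
  rw [FZ_eq ρ σ h0, gz_eq]
  simp only [cc, ca, cb]
  have : Complex.exp ((la ρ u : ℂ) * (1 / 2 - z / 4) - (lu ρ u : ℂ) * z) *
      Complex.exp ((lg g x : ℂ) * ((qt θ : ℂ) * (1 / 2 + z / 4))) =
      Complex.exp (((1 / 2 * la ρ u + qt θ / 2 * lg g x : ℝ) : ℂ) +
        z * ((-(1 / 4) * la ρ u - lu ρ u + qt θ / 4 * lg g x : ℝ) : ℂ)) := by
    rw [← Complex.exp_add]
    congr 1
    push_cast
    ring
  rw [← this]
  ring

/-- the analytic function -/
noncomputable def Phi (θ : ℝ) (ρ : ℂ → ℝ) (σ g : ℂ → ℂ) (z : ℂ) : ℂ :=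
  ∫ x, hat (FZ ρ σ z) x * gz θ g z x

theorem bd_log {M : ℝ} (hM : 1 ≤ M) {r t : ℝ} (h0 : 0 ≤ r) (hr : r ≤ M) (ht0 : 0 ≤ t) (N : ℕ)
    (ht : t ≤ N) : Real.exp (t * Real.log r) ≤ M ^ N := by
  have hlogM : 0 ≤ Real.log M := Real.log_nonneg hM
  have h1 : Real.log r ≤ Real.log M := by
    rcases h0.eq_or_lt with h | h
    · rw [← h, Real.log_zero]
      exact hlogM
    · exact Real.log_le_log h hr
  calc Real.exp (t * Real.log r) ≤ Real.exp (N * Real.log M) := by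
        apply Real.exp_le_exp.2
        calc t * Real.log r ≤ t * Real.log M := mul_le_mul_of_nonneg_left h1 ht0
          _ ≤ N * Real.log M := mul_le_mul_of_nonneg_right ht hlogM
    _ = M ^ N := by
        rw [Real.exp_nat_mul, Real.exp_log (by linarith)]

theorem qt_pos {θ : ℝ} (h : 0 < θ) : 0 < qt θ := by unfold qt; positivity

theorem qt_lt {θ : ℝ} (h : 0 < θ) : qt θ < 2 := by
  unfold qt
  rw [div_lt_iff₀ (by linarith)]
  linarith

theorem K_bound {θ : ℝ} (hθ : 0 < θ) {ρ : ℂ → ℝ} {σ : ℂ → ℂ} (hA : Adm ρ σ) {g : ℂ → ℂ} (hg : Nice g) :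
    ∃ K : ℝ, 0 ≤ K ∧ ∀ w, ∀ s : ℝ, -(1 / 2) ≤ s → s ≤ 3 / 2 →
      Real.exp (ca θ ρ g w + s * cb θ ρ g w) ≤ K := by
  classical
  obtain ⟨hm, hσ, h0, ⟨M, hM⟩, ⟨δ, R, hδ, hR⟩, hs⟩ := hA
  obtain ⟨hgm, ⟨N, hN⟩, _⟩ := hg
  set M' := max 1 M with hM'
  set N' := max 1 N with hN'
  set Λ := |Real.log δ| + |Real.log R| with hΛ
  refine ⟨M' ^ 1 * Real.exp (2 * Λ) * N' ^ 2, by positivity, fun w s hs1 hs2 => ?_⟩
  have hq0 := qt_pos hθ
  have hq2 := qt_lt hθ
  have e : ca θ ρ g w + s * cb θ ρ g w =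
      (1 / 2 - s / 4) * la ρ w.2 + (-s * lu ρ w.2) + (qt θ / 2 + s * qt θ / 4) * lg g w.1 := by
    simp only [ca, cb]
    ring
  rw [e, Real.exp_add, Real.exp_add]
  have hM1 : (1 : ℝ) ≤ M' := le_max_left _ _
  have hN1 : (1 : ℝ) ≤ N' := le_max_left _ _
  have b1 : Real.exp ((1 / 2 - s / 4) * la ρ w.2) ≤ M' ^ 1 := by
    by_cases h : ρ w.2 = 0 ∨ w.2 = 0
    · simp only [la, if_pos h, mul_zero, Real.exp_zero, pow_one]
      exact hM1
    · simp only [la, if_neg h]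
      exact bd_log hM1 (h0 _) ((hM _).trans (le_max_right _ _)) (by linarith) 1 (by push_cast; linarith)
  have b2 : Real.exp (-s * lu ρ w.2) ≤ Real.exp (2 * Λ) := by
    apply Real.exp_le_exp.2
    have hΛ0 : 0 ≤ Λ := by positivity
    by_cases h : ρ w.2 = 0 ∨ w.2 = 0
    · simp only [lu, if_pos h, mul_zero]
      positivity
    · simp only [lu, if_neg h]
      push Not at h
      obtain ⟨h3, h4⟩ := hR _ h.1
      have hwp : 0 < ‖w.2‖ := norm_pos_iff.2 h.2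
      have hl : |Real.log ‖w.2‖| ≤ Λ := by
        rw [abs_le]
        have l1 : Real.log δ ≤ Real.log ‖w.2‖ := Real.log_le_log hδ h3
        have l2 : Real.log ‖w.2‖ ≤ Real.log R := Real.log_le_log hwp h4
        have a1 := neg_abs_le (Real.log δ)
        have a2 := le_abs_self (Real.log R)
        have a3 := abs_nonneg (Real.log δ)
        have a4 := abs_nonneg (Real.log R)
        constructor <;> simp only [hΛ] <;> linarith
      calc -s * Real.log ‖w.2‖ ≤ |(-s) * Real.log ‖w.2‖| := le_abs_self _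
        _ = |s| * |Real.log ‖w.2‖| := by rw [abs_mul, abs_neg]
        _ ≤ 2 * Λ := by
          apply mul_le_mul _ hl (abs_nonneg _) (by norm_num)
          rw [abs_le]
          constructor <;> linarith
  have b3 : Real.exp ((qt θ / 2 + s * qt θ / 4) * lg g w.1) ≤ N' ^ 2 := by
    unfold lg
    have : (qt θ / 2 + s * qt θ / 4) = qt θ / 4 * (2 + s) := by ring
    rw [this]
    refine bd_log hN1 (norm_nonneg _) ((hN _).trans (le_max_right _ _)) ?_ 2 ?_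
    · have : 0 ≤ 2 + s := by linarith
      positivity
    · push_cast
      nlinarith
  gcongr

end Pool.Agent.H15PB
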