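import Pool.Agent.H15PB.Edge

set_option autoImplicit false

open MeasureTheory ENNReal Filter Topology Complex Set
open scoped ComplexConjugate

namespace Pool.Agent.H15PB

open Pool.Agent.N892.BW Pool.Agent.H78.PB

theorem sin_pos {θ : ℝ} (h0 : 0 < θ) (h1 : θ < 1) : 0 < Real.sin (Real.pi * θ) :=
  Real.sin_pos_of_pos_of_lt_pi (by have := Real.pi_pos; positivity)
    (by have := Real.pi_pos; nlinarith)

theorem cos_lt {θ : ℝ} (h0 : 0 < θ) (h1 : θ < 1) : |Real.cos (Real.pi * θ)| < 1 := by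
  have hs := sin_pos h0 h1
  have h2 := Real.sin_sq_add_cos_sq (Real.pi * θ)
  rw [← sq_lt_one_iff_abs_lt_one]
  nlinarith

theorem den0 {θ : ℝ} (h0 : 0 < θ) (h1 : θ < 1) (y : ℝ) :
    0 < Real.cosh (Real.pi * y) - Real.cos (Real.pi * θ) := by
  have := (abs_lt.1 (cos_lt h0 h1)).2
  have := Real.one_le_cosh (Real.pi * y)
  linarith

theorem den1 {θ : ℝ} (h0 : 0 < θ) (h1 : θ < 1) (y : ℝ) :
    0 < Real.cosh (Real.pi * y) + Real.cos (Real.pi * θ) := by
  have := (abs_lt.1 (cos_lt h0 h1)).1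
  have := Real.one_le_cosh (Real.pi * y)
  linarith

theorem p0_pos {θ : ℝ} (h0 : 0 < θ) (h1 : θ < 1) (y : ℝ) : 0 < p0 θ y := by
  unfold p0
  have := sin_pos h0 h1
  have := den0 h0 h1 y
  positivity

theorem p1_pos {θ : ℝ} (h0 : 0 < θ) (h1 : θ < 1) (y : ℝ) : 0 < p1 θ y := by
  unfold p1
  have := sin_pos h0 h1
  have := den1 h0 h1 y
  positivity

theorem p0_cont {θ : ℝ} (h0 : 0 < θ) (h1 : θ < 1) : Continuous (p0 θ) := by
  unfold p0
  have hc : Continuous fun y : ℝ => Real.cosh (Real.pi * y) :=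
    Real.continuous_cosh.comp (continuous_const.mul continuous_id)
  refine Continuous.div continuous_const (by fun_prop) fun y => ?_
  have := den0 h0 h1 y
  positivity

theorem p1_cont {θ : ℝ} (h0 : 0 < θ) (h1 : θ < 1) : Continuous (p1 θ) := by
  unfold p1
  have hc : Continuous fun y : ℝ => Real.cosh (Real.pi * y) :=
    Real.continuous_cosh.comp (continuous_const.mul continuous_id)
  refine Continuous.div continuous_const (by fun_prop) fun y => ?_
  have := den1 h0 h1 y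
  positivity

section
variable {θ : ℝ} (h0 : 0 < θ) (h1 : θ < 1) (hK : P_KRN)
include h0 h1 hK

theorem p0_int : Integrable (p0 θ) := by
  have := ((hK θ h0 h1).1 0).1
  simpa using this

theorem p1_int : Integrable (p1 θ) := by
  have := ((hK θ h0 h1).1 0).2
  simpa using this

omit h0 h1 hK in
theorem dom {w : ℝ → ℝ} (hw : Continuous w) (hp : ∀ y, 0 < w y)
    (hi : Integrable fun y : ℝ => w y * (1 + |y|) ^ 2) (f : ℝ → ℝ) (hf : AEStronglyMeasurable f)
    (C : ℝ) (hC : ∀ y, |f y| ≤ C * (1 + |y|) ^ 2) : Integrable fun y => w y * f y := by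
  have h := hi.const_mul C
  refine h.mono' (hw.aestronglyMeasurable.mul hf) (Eventually.of_forall fun y => ?_)
  rw [Real.norm_eq_abs, abs_mul, abs_of_pos (hp y)]
  have := mul_le_mul_of_nonneg_left (hC y) (hp y).le
  linarith

theorem p0_dom (f : ℝ → ℝ) (hf : AEStronglyMeasurable f)
    (C : ℝ) (hC : ∀ y, |f y| ≤ C * (1 + |y|) ^ 2) : Integrable fun y => p0 θ y * f y :=
  dom (p0_cont h0 h1) (p0_pos h0 h1) ((hK θ h0 h1).1 2).1 f hf C hC

theorem p1_dom (f : ℝ → ℝ) (hf : AEStronglyMeasurable f)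
    (C : ℝ) (hC : ∀ y, |f y| ≤ C * (1 + |y|) ^ 2) : Integrable fun y => p1 θ y * f y :=
  dom (p1_cont h0 h1) (p1_pos h0 h1) ((hK θ h0 h1).1 2).2 f hf C hC

theorem W_bound (h3 : P_MOM) (h6 : P_CRZ) :
    (∫ y, (1 + y ^ 2) * p1 θ y * ‖RI y‖ ^ 2) ≤ Real.pi ^ 2 * θ * bb θ := by
  have hp1 := p1_int h0 h1 hK
  have hp1y : Integrable fun y => p1 θ y * y ^ 2 := by
    refine p1_dom h0 h1 hK _ (by fun_prop) 1 fun y => ?_
    rw [abs_of_nonneg (sq_nonneg y), one_mul, ← sq_abs y]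
    have := abs_nonneg y
    gcongr
    linarith
  have hp1d : Integrable fun y => p1 θ y / (1 + y ^ 2) := by
    have : Integrable fun y => p1 θ y * (1 + y ^ 2)⁻¹ := by
      refine p1_dom h0 h1 hK _ (by fun_prop) 1 fun y => ?_
      have hy : 0 < 1 + y ^ 2 := by positivity
      rw [abs_of_pos (inv_pos.2 hy), one_mul]
      have e1 : (1 + y ^ 2)⁻¹ ≤ 1 := inv_le_one_of_one_le₀ (by nlinarith [sq_nonneg y])
      have e2 : (1 : ℝ) ≤ (1 + |y|) ^ 2 := by
        have := abs_nonneg y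
        nlinarith
      linarith
    simpa [div_eq_mul_inv] using this
  set c := Real.pi ^ 2 * c4 ^ 4 / 81 with hc
  have hle : (∫ y, (1 + y ^ 2) * p1 θ y * ‖RI y‖ ^ 2) ≤
      ∫ y, (c * 17 * p1 θ y + c * (p1 θ y * y ^ 2) + c * 64 * (p1 θ y / (1 + y ^ 2))) := by
    apply integral_mono_of_nonneg
    · refine Eventually.of_forall fun y => ?_
      have := (p1_pos h0 h1 y).le
      simp only [Pi.zero_apply]
      positivity
    · exact (((hp1.const_mul _).add (hp1y.const_mul _)).add (hp1d.const_mul _))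
    · refine Eventually.of_forall fun y => ?_
      simp only
      have hy : 0 < 1 + y ^ 2 := by positivity
      have hp := (p1_pos h0 h1 y).le
      have hR := h6 y
      have hR2 : ‖RI y‖ ^ 2 ≤ (Real.pi * c4 ^ 2 * (1 + y ^ 2 / 9) / (1 + y ^ 2)) ^ 2 :=
        pow_le_pow_left₀ (norm_nonneg _) hR 2
      calc (1 + y ^ 2) * p1 θ y * ‖RI y‖ ^ 2 ≤
          (1 + y ^ 2) * p1 θ y * (Real.pi * c4 ^ 2 * (1 + y ^ 2 / 9) / (1 + y ^ 2)) ^ 2 :=
            mul_le_mul_of_nonneg_left hR2 (by positivity)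
        _ = _ := by
            rw [hc]
            field_simp
            ring
  refine hle.trans (le_of_eq_of_le (b := c * 17 * θ + c * (θ * (1 - θ ^ 2) / 3) +
    c * 64 * ∫ y, p1 θ y / (1 + y ^ 2)) ?_ ?_)
  · rw [integral_add, integral_add, integral_const_mul, integral_const_mul, integral_const_mul,
      (hK θ h0 h1).2.2, (h3 θ h0 h1).2.1]
    · exact hp1.const_mul _
    · exact hp1y.const_mul _
    · exact (hp1.const_mul _).add (hp1y.const_mul _)
    · exact hp1d.const_mul _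
  · have h5 := (h3 θ h0 h1).2.2.2
    have hc0 : 0 ≤ c := by rw [hc]; positivity
    have e : Real.pi ^ 2 * θ * bb θ = c * 17 * θ + c * (θ * (1 - θ ^ 2) / 3) +
        c * 64 * (θ * (20 - 7 * θ) / ((2 - θ) * (12 + 2 * θ - θ ^ 2))) := by
      have d1 : (2 - θ) ≠ 0 := by linarith
      have d2 : (12 + 2 * θ - θ ^ 2) ≠ 0 := by nlinarith
      rw [hc, bb]
      field_simp
    rw [e]
    have := mul_le_mul_of_nonneg_left h5 (by positivity : 0 ≤ c * 64)
    linarith

end

theorem mem_cl {z : ℂ} (h1 : 0 ≤ z.re) (h2 : z.re ≤ 1) : z ∈ closure {z : ℂ | 0 < z.re ∧ z.re < 1} := by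
  have e : {z : ℂ | 0 < z.re ∧ z.re < 1} = Complex.re ⁻¹' Ioo 0 1 := rfl
  rw [e, Complex.closure_preimage_re, closure_Ioo (by norm_num)]
  exact ⟨h1, h2⟩

end Pool.Agent.H15PB
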