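import Pool.Agent.H15PB.Interp

set_option autoImplicit false

open MeasureTheory ENNReal Filter Topology Complex Set
open scoped ComplexConjugate

namespace Pool.Agent.H15PB

open Pool.Agent.N892.BW Pool.Agent.H78.PB

theorem Phi_cont0 {θ : ℝ} (hθ : 0 < θ) {ρ : ℂ → ℝ} {σ : ℂ → ℂ} (hA : Adm ρ σ) {g : ℂ → ℂ} (hg : Nice g) :
    Continuous fun y : ℝ => Phi θ ρ σ g ((y : ℂ) * I) := by
  have h := (Phi_ana hθ hA hg).1.continuousOn
  have h2 : Continuous fun y : ℝ => (y : ℂ) * I := by fun_prop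
  exact h.comp_continuous h2 fun y => mem_cl (by simp) (by simp)

theorem Phi_cont1 {θ : ℝ} (hθ : 0 < θ) {ρ : ℂ → ℝ} {σ : ℂ → ℂ} (hA : Adm ρ σ) {g : ℂ → ℂ} (hg : Nice g) :
    Continuous fun y : ℝ => Phi θ ρ σ g (1 + (y : ℂ) * I) := by
  have h := (Phi_ana hθ hA hg).1.continuousOn
  have h2 : Continuous fun y : ℝ => 1 + (y : ℂ) * I := by fun_prop
  exact h.comp_continuous h2 fun y => mem_cl (by simp) (by simp)

/-- the left boundary integral -/
theorem left {θ : ℝ} (h0 : 0 < θ) (h1 : θ < 1) (hK : P_KRN) (h3 : P_MOM) {ρ : ℂ → ℝ} {σ : ℂ → ℂ}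
    (hA : Adm ρ σ) {g : ℂ → ℂ} (hg : Nice g) (hg1 : ∫⁻ x, ‖g x‖ₑ ^ (qt θ) ≤ 1) {R : ℝ} (hR : 0 ≤ R)
    (hRe : ∫⁻ u, ENNReal.ofReal (ρ u) = ENNReal.ofReal R) :
    ∫ y, p0 θ y * ((4 + y ^ 2) * ‖Phi θ ρ σ g ((y : ℂ) * I)‖ ^ 4) ≤
      (1 - θ) * ((2 * Real.pi) ^ 4 * R ^ 2 * aa θ) := by
  have hb : ∀ y : ℝ, ‖Phi θ ρ σ g ((y : ℂ) * I)‖ ^ 2 ≤ (2 * Real.pi) ^ 2 * R := by
    intro y
    have h := edge0 h0 hA hg hg1 y
    rw [hRe, ← ofReal_norm, ← ENNReal.ofReal_pow (norm_nonneg _), ← ENNReal.ofReal_mul (by positivity)] at h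
    exact (ENNReal.ofReal_le_ofReal_iff (by positivity)).1 h
  have hb4 : ∀ y : ℝ, ‖Phi θ ρ σ g ((y : ℂ) * I)‖ ^ 4 ≤ (2 * Real.pi) ^ 4 * R ^ 2 := by
    intro y
    have := pow_le_pow_left₀ (by positivity) (hb y) 2
    calc _ = (‖Phi θ ρ σ g ((y : ℂ) * I)‖ ^ 2) ^ 2 := by ring
      _ ≤ ((2 * Real.pi) ^ 2 * R) ^ 2 := this
      _ = _ := by ring
  have hp := p0_int h0 h1 hK
  have hpy : Integrable fun y => p0 θ y * y ^ 2 := by
    refine p0_dom h0 h1 hK _ (by fun_prop) 1 fun y => ?_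
    rw [abs_of_nonneg (sq_nonneg y), one_mul, ← sq_abs y]
    have := abs_nonneg y
    gcongr
    linarith
  calc ∫ y, p0 θ y * ((4 + y ^ 2) * ‖Phi θ ρ σ g ((y : ℂ) * I)‖ ^ 4) ≤
      ∫ y, ((2 * Real.pi) ^ 4 * R ^ 2 * 4 * p0 θ y + (2 * Real.pi) ^ 4 * R ^ 2 * (p0 θ y * y ^ 2)) := by
        apply integral_mono_of_nonneg
        · refine Eventually.of_forall fun y => ?_
          have := (p0_pos h0 h1 y).le
          simp only [Pi.zero_apply]
          positivity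
        · exact (hp.const_mul _).add (hpy.const_mul _)
        · refine Eventually.of_forall fun y => ?_
          simp only
          have hp' := (p0_pos h0 h1 y).le
          calc p0 θ y * ((4 + y ^ 2) * ‖Phi θ ρ σ g ((y : ℂ) * I)‖ ^ 4) ≤
              p0 θ y * ((4 + y ^ 2) * ((2 * Real.pi) ^ 4 * R ^ 2)) := by
                gcongr
                exact hb4 y
            _ = _ := by ring
    _ = _ := by
        rw [integral_add (hp.const_mul _) (hpy.const_mul _), integral_const_mul, integral_const_mul,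
          (hK θ h0 h1).2.1, (h3 θ h0 h1).1, aa]
        ring

/-- the right boundary integral -/
theorem right {θ : ℝ} (h0 : 0 < θ) (h1 : θ < 1) (hK : P_KRN) (h3 : P_MOM) (h4 : P_KEA) (h5 : P_KEB)
    (h6 : P_CRZ) {ρ : ℂ → ℝ} {σ : ℂ → ℂ}
    (hA : Adm ρ σ) {g : ℂ → ℂ} (hg : Nice g) (hg1 : ∫⁻ x, ‖g x‖ₑ ^ (qt θ) ≤ 1) {R : ℝ} (hR : 0 ≤ R)
    (hRe : ∫⁻ u, ENNReal.ofReal (ρ u) = ENNReal.ofReal R) :
    ∫ y, p1 θ y * ((1 + y ^ 2) * ‖Phi θ ρ σ g (1 + (y : ℂ) * I)‖ ^ 4) ≤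
      θ * ((2 * Real.pi) ^ 2 * Real.pi ^ 2 * R * bb θ) := by
  set W := ∫ y, (1 + y ^ 2) * p1 θ y * ‖RI y‖ ^ 2 with hW
  have hWb : W ≤ Real.pi ^ 2 * θ * bb θ := W_bound h0 h1 hK h3 h6
  have hW0 : 0 ≤ W := by
    apply integral_nonneg
    intro y
    have := (p1_pos h0 h1 y).le
    simp only [Pi.zero_apply]
    positivity
  have hl : ∫⁻ y : ℝ, ENNReal.ofReal (p1 θ y * ((1 + y ^ 2) * ‖Phi θ ρ σ g (1 + (y : ℂ) * I)‖ ^ 4)) ≤
      ENNReal.ofReal ((2 * Real.pi) ^ 2 * R * W) := by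
    calc ∫⁻ y : ℝ, ENNReal.ofReal (p1 θ y * ((1 + y ^ 2) * ‖Phi θ ρ σ g (1 + (y : ℂ) * I)‖ ^ 4)) ≤
        ∫⁻ y : ℝ, ENNReal.ofReal ((1 + y ^ 2) * p1 θ y) *
          ∫⁻ x, ‖hat (FZ ρ σ (1 + (y : ℂ) * I)) x‖ₑ ^ 4 := by
          refine lintegral_mono fun y => ?_
          have hp := (p1_pos h0 h1 y).le
          rw [← mul_assoc, mul_comm (p1 θ y), ENNReal.ofReal_mul (by positivity),
            ENNReal.ofReal_pow (norm_nonneg _), ofReal_norm]
          exact mul_le_mul_right (edge1 h0 hA hg hg1 y) _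
      _ ≤ ENNReal.ofReal ((2 * Real.pi) ^ 2) * ∫⁻ u, ENNReal.ofReal (ρ u) * JD θ u := h4 θ h0 h1 ρ σ hA
      _ ≤ ENNReal.ofReal ((2 * Real.pi) ^ 2) * ∫⁻ u, ENNReal.ofReal (ρ u) * ENNReal.ofReal W := by
          refine mul_le_mul_right (lintegral_mono fun u => ?_) _
          by_cases hu : u = 0
          · have : ρ u = 0 := by
              by_contra h
              obtain ⟨δ, R0, hδ, hR0⟩ := hA.2.2.2.2.1
              have := (hR0 u h).1
              rw [hu, norm_zero] at this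
              linarith
            rw [this]
            simp
          · exact mul_le_mul_right (h5 θ h0 h1 u hu) _
      _ = ENNReal.ofReal ((2 * Real.pi) ^ 2 * R * W) := by
          rw [lintegral_mul_const' _ _ ENNReal.ofReal_ne_top, hRe, ← ENNReal.ofReal_mul hR,
            ← ENNReal.ofReal_mul (by positivity), mul_assoc]
  have hmeas : AEStronglyMeasurable
      (fun y : ℝ => p1 θ y * ((1 + y ^ 2) * ‖Phi θ ρ σ g (1 + (y : ℂ) * I)‖ ^ 4)) := by
    have hc := Phi_cont1 h0 hA hg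
    have hp := p1_cont h0 h1
    apply Continuous.aestronglyMeasurable
    fun_prop
  rw [integral_eq_lintegral_of_nonneg_ae _ hmeas]
  · refine ENNReal.toReal_le_of_le_ofReal ?_ (hl.trans ?_)
    · have hb : 0 ≤ bb θ := by
        unfold bb
        have d1 : 0 < (2 - θ) := by linarith
        have d2 : 0 < (12 + 2 * θ - θ ^ 2) := by nlinarith
        have d3 : 0 < 20 - 7 * θ := by linarith
        have d4 : 0 ≤ 1 - θ ^ 2 := by nlinarith
        positivity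
      positivity
    · apply ENNReal.ofReal_le_ofReal
      have := mul_le_mul_of_nonneg_left hWb (by positivity : 0 ≤ (2 * Real.pi) ^ 2 * R)
      nlinarith
  · refine Eventually.of_forall fun y => ?_
    have := (p1_pos h0 h1 y).le
    simp only [Pi.zero_apply]
    positivity

theorem aa_pos {θ : ℝ} (h0 : 0 < θ) (h1 : θ < 1) : 0 < aa θ := by
  unfold aa
  nlinarith

theorem c4_pos : 0 < c4 := by
  unfold c4
  exact div_pos (Real.Gamma_pos_of_pos (by norm_num)) (Real.Gamma_pos_of_pos (by norm_num))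

theorem bb_pos {θ : ℝ} (h0 : 0 < θ) (h1 : θ < 1) : 0 < bb θ := by
  unfold bb
  have := c4_pos
  have d1 : 0 < (2 - θ) := by linarith
  have d2 : 0 < (12 + 2 * θ - θ ^ 2) := by nlinarith
  have d3 : 0 < 20 - 7 * θ := by linarith
  have d4 : 0 < 1 - θ ^ 2 := by nlinarith
  positivity

/-- the interpolated inequality -/
theorem interp {θ : ℝ} (h0 : 0 < θ) (h1 : θ < 1) (hK : P_KRN) (h2 : P_POI) (h3 : P_MOM) (h4 : P_KEA)
    (h5 : P_KEB) (h6 : P_CRZ) {ρ : ℂ → ℝ} {σ : ℂ → ℂ}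
    (hA : Adm ρ σ) {g : ℂ → ℂ} (hg : Nice g) (hg1 : ∫⁻ x, ‖g x‖ₑ ^ (qt θ) ≤ 1) {R : ℝ} (hR : 0 < R)
    (hRe : ∫⁻ u, ENNReal.ofReal (ρ u) = ENNReal.ofReal R) :
    ‖Phi θ ρ σ g θ‖ ^ (4 / (2 - θ)) ≤ 4 * Real.pi ^ (4 / (2 - θ)) * KK θ ^ (4 / (2 - θ)) * R := by
  obtain ⟨hD, K, hK0, hKb⟩ := Phi_ana h0 hA hg
  have hpi := Real.pi_pos
  have haa := aa_pos h0 h1
  have hbb := bb_pos h0 h1
  set X := (2 * Real.pi) ^ 4 * R ^ 2 * aa θ with hX
  set Y := (2 * Real.pi) ^ 2 * Real.pi ^ 2 * R * bb θ with hY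
  have hX0 : 0 < X := by positivity
  have hY0 : 0 < Y := by positivity
  set lam := Real.log X - Real.log Y with hlam
  set h : ℂ → ℂ := fun z => (2 - z) ^ 2 * (Phi θ ρ σ g z) ^ 4 * Complex.exp ((lam : ℂ) * (z - θ)) with hh
  have hDh : DiffContOnCl ℂ h {z : ℂ | 0 < z.re ∧ z.re < 1} := by
    have e1 : Differentiable ℂ fun z : ℂ => (2 - z) ^ 2 := by fun_prop
    have e2 : Differentiable ℂ fun z : ℂ => Complex.exp ((lam : ℂ) * (z - θ)) := by fun_prop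
    constructor
    · exact (e1.differentiableOn.mul (hD.differentiableOn.pow 4)).mul e2.differentiableOn
    · exact (e1.continuous.continuousOn.mul (hD.continuousOn.pow 4)).mul e2.continuous.continuousOn
  have hnexp : ∀ z : ℂ, ‖Complex.exp ((lam : ℂ) * (z - θ))‖ = Real.exp (lam * (z.re - θ)) := by
    intro z
    rw [Complex.norm_exp]
    congr 1
    simp
  have hgrow : ∀ z : ℂ, 0 ≤ z.re → z.re ≤ 1 → ‖h z‖ ≤ (9 * K ^ 4 * Real.exp |lam|) * (1 + |z.im|) ^ 2 := by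
    intro z hz1 hz2
    rw [hh]
    simp only
    rw [norm_mul, norm_mul, norm_pow, norm_pow, hnexp]
    have e1 : ‖2 - z‖ ≤ 3 * (1 + |z.im|) := by
      have a1 : ‖(2 : ℂ) - z‖ ≤ ‖(2 : ℂ)‖ + ‖z‖ := norm_sub_le _ _
      have a2 : ‖(2 : ℂ)‖ = 2 := by norm_num
      have a3 : ‖z‖ ≤ |z.re| + |z.im| := Complex.norm_le_abs_re_add_abs_im z
      have a4 : |z.re| ≤ 1 := by rw [abs_of_nonneg hz1]; exact hz2
      have a5 := abs_nonneg z.im
      linarith
    have e2 := hKb z hz1 hz2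
    have e3 : Real.exp (lam * (z.re - θ)) ≤ Real.exp |lam| := by
      apply Real.exp_le_exp.2
      calc lam * (z.re - θ) ≤ |lam * (z.re - θ)| := le_abs_self _
        _ = |lam| * |z.re - θ| := abs_mul _ _
        _ ≤ |lam| * 1 := by
          gcongr
          rw [abs_le]
          constructor <;> linarith
        _ = |lam| := mul_one _
    calc ‖2 - z‖ ^ 2 * ‖Phi θ ρ σ g z‖ ^ 4 * Real.exp (lam * (z.re - θ)) ≤
        (3 * (1 + |z.im|)) ^ 2 * K ^ 4 * Real.exp |lam| := by gcongr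
      _ = _ := by ring
  have hP := h2 θ h0 h1 h 2 _ hDh hgrow
  have hl := left h0 h1 hK h3 hA hg hg1 hR.le hRe
  have hr := right h0 h1 hK h3 h4 h5 h6 hA hg hg1 hR.le hRe
  have hn0 : ∀ y : ℝ, ‖(p0 θ y : ℂ) * h ((y : ℂ) * I)‖ =
      Real.exp (-lam * θ) * (p0 θ y * ((4 + y ^ 2) * ‖Phi θ ρ σ g ((y : ℂ) * I)‖ ^ 4)) := by
    intro y
    rw [hh]
    simp only
    rw [norm_mul, norm_mul, norm_mul, norm_pow, norm_pow, hnexp, Complex.norm_real, Real.norm_eq_abs,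
      abs_of_pos (p0_pos h0 h1 y)]
    have e1 : ‖2 - (y : ℂ) * I‖ ^ 2 = 4 + y ^ 2 := by
      rw [← Complex.normSq_eq_norm_sq, Complex.normSq_apply]
      simp
      ring
    have e2 : lam * (((y : ℂ) * I).re - θ) = -lam * θ := by simp
    rw [e1, e2]
    ring
  have hn1 : ∀ y : ℝ, ‖(p1 θ y : ℂ) * h (1 + (y : ℂ) * I)‖ =
      Real.exp (lam * (1 - θ)) * (p1 θ y * ((1 + y ^ 2) * ‖Phi θ ρ σ g (1 + (y : ℂ) * I)‖ ^ 4)) := by
    intro y
    rw [hh]
    simp only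
    rw [norm_mul, norm_mul, norm_mul, norm_pow, norm_pow, hnexp, Complex.norm_real, Real.norm_eq_abs,
      abs_of_pos (p1_pos h0 h1 y)]
    have e1 : ‖2 - (1 + (y : ℂ) * I)‖ ^ 2 = 1 + y ^ 2 := by
      rw [← Complex.normSq_eq_norm_sq, Complex.normSq_apply]
      simp
      ring
    have e2 : lam * ((1 + (y : ℂ) * I).re - θ) = lam * (1 - θ) := by simp
    rw [e1, e2]
    ring
  have hmain : ‖h θ‖ ≤ Real.exp (-lam * θ) * ((1 - θ) * X) + Real.exp (lam * (1 - θ)) * (θ * Y) := by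
    rw [hP]
    refine (norm_add_le _ _).trans ?_
    gcongr
    · refine (norm_integral_le_integral_norm _).trans ?_
      simp only [hn0]
      rw [integral_const_mul]
      gcongr
    · refine (norm_integral_le_integral_norm _).trans ?_
      simp only [hn1]
      rw [integral_const_mul]
      gcongr
  have hhθ : ‖h θ‖ = (2 - θ) ^ 2 * ‖Phi θ ρ σ g θ‖ ^ 4 := by
    rw [hh]
    simp only
    rw [norm_mul, norm_mul, norm_pow, norm_pow, hnexp]
    have e1 : ‖(2 : ℂ) - (θ : ℂ)‖ = 2 - θ := by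
      have : (2 : ℂ) - (θ : ℂ) = ((2 - θ : ℝ) : ℂ) := by push_cast; rfl
      rw [this, Complex.norm_real, Real.norm_eq_abs, abs_of_pos (by linarith)]
    rw [e1]
    simp
  set E := Real.exp ((1 - θ) * Real.log X + θ * Real.log Y) with hE
  have hE1 : Real.exp (-lam * θ) * X = E := by
    have : Real.exp (-lam * θ) * Real.exp (Real.log X) = E := by
      rw [← Real.exp_add, hE, hlam]
      congr 1
      ring
    rwa [Real.exp_log hX0] at this
  have hE2 : Real.exp (lam * (1 - θ)) * Y = E := by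
    have : Real.exp (lam * (1 - θ)) * Real.exp (Real.log Y) = E := by
      rw [← Real.exp_add, hE, hlam]
      congr 1
      ring
    rwa [Real.exp_log hY0] at this
  have hfin : (2 - θ) ^ 2 * ‖Phi θ ρ σ g θ‖ ^ 4 ≤ E := by
    rw [← hhθ]
    refine hmain.trans (le_of_eq ?_)
    calc _ = (1 - θ) * (Real.exp (-lam * θ) * X) + θ * (Real.exp (lam * (1 - θ)) * Y) := by ring
      _ = E := by rw [hE1, hE2]; ring
  have hE3 : E = X ^ (1 - θ) * Y ^ θ := by
    rw [hE, Real.exp_add, Real.rpow_def_of_pos hX0, Real.rpow_def_of_pos hY0, mul_comm (1 - θ),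
      mul_comm θ]
  have h2θ : 0 < 2 - θ := by linarith
  have hKK4 : KK θ ^ 4 = aa θ ^ (1 - θ) * bb θ ^ θ / (2 - θ) ^ 2 := by
    unfold KK
    rw [← Real.rpow_natCast, ← Real.rpow_mul (by positivity)]
    norm_num
  have hE4 : E / (2 - θ) ^ 2 = (4 * Real.pi ^ (4 / (2 - θ)) * KK θ ^ (4 / (2 - θ)) * R) ^ (2 - θ) := by
    have hKK0 : 0 ≤ KK θ := by
      unfold KK
      positivity
    have e4 : 4 / (2 - θ) * (2 - θ) = (4 : ℕ) := by
      push_cast
      field_simp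
    have m0 : (4 * Real.pi ^ (4 / (2 - θ)) * KK θ ^ (4 / (2 - θ)) * R) ^ (2 - θ) =
        (4 : ℝ) ^ (2 - θ) * Real.pi ^ 4 * (aa θ ^ (1 - θ) * bb θ ^ θ / (2 - θ) ^ 2) * R ^ (2 - θ) := by
      rw [Real.mul_rpow (by positivity) hR.le, Real.mul_rpow (by positivity) (by positivity),
        Real.mul_rpow (by positivity) (by positivity), ← Real.rpow_mul hpi.le, ← Real.rpow_mul hKK0,
        e4, Real.rpow_natCast, Real.rpow_natCast, hKK4]
    rw [m0, hE3, hX, hY]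
    have e5 : (2 * Real.pi) ^ 4 * R ^ 2 * aa θ = (4 : ℝ) ^ (2 : ℝ) * Real.pi ^ 4 * R ^ (2 : ℝ) * aa θ := by
      rw [Real.rpow_two, Real.rpow_two]
      ring
    have e6 : (2 * Real.pi) ^ 2 * Real.pi ^ 2 * R * bb θ = 4 * Real.pi ^ 4 * R * bb θ := by ring
    rw [e5, e6]
    have m1 : ((4 : ℝ) ^ (2 : ℝ) * Real.pi ^ 4 * R ^ (2 : ℝ) * aa θ) ^ (1 - θ) =
        (4 : ℝ) ^ (2 * (1 - θ)) * (Real.pi ^ 4) ^ (1 - θ) * R ^ (2 * (1 - θ)) * aa θ ^ (1 - θ) := by
      rw [Real.mul_rpow (by positivity) haa.le, Real.mul_rpow (by positivity) (by positivity),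
        Real.mul_rpow (by positivity) (by positivity), ← Real.rpow_mul (by norm_num),
        ← Real.rpow_mul hR.le]
    have m2 : (4 * Real.pi ^ 4 * R * bb θ) ^ θ =
        (4 : ℝ) ^ θ * (Real.pi ^ 4) ^ θ * R ^ θ * bb θ ^ θ := by
      rw [Real.mul_rpow (by positivity) hbb.le, Real.mul_rpow (by positivity) hR.le,
        Real.mul_rpow (by positivity) (by positivity)]
    rw [m1, m2]
    have s1 : (4 : ℝ) ^ (2 - θ) = (4 : ℝ) ^ (2 * (1 - θ)) * (4 : ℝ) ^ θ := by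
      rw [← Real.rpow_add (by norm_num)]
      congr 1
      ring
    have s2 : R ^ (2 - θ) = R ^ (2 * (1 - θ)) * R ^ θ := by
      rw [← Real.rpow_add hR]
      congr 1
      ring
    have s3 : Real.pi ^ 4 = (Real.pi ^ 4) ^ (1 - θ) * (Real.pi ^ 4) ^ θ := by
      rw [← Real.rpow_add (by positivity)]
      have : 1 - θ + θ = 1 := by ring
      rw [this, Real.rpow_one]
    rw [s1, s2]
    generalize (Real.pi ^ 4) ^ (1 - θ) = P1 at s3 ⊢
    generalize (Real.pi ^ 4) ^ θ = P2 at s3 ⊢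
    rw [s3]
    ring
  have hlast : ‖Phi θ ρ σ g θ‖ ^ 4 ≤
      (4 * Real.pi ^ (4 / (2 - θ)) * KK θ ^ (4 / (2 - θ)) * R) ^ (2 - θ) := by
    rw [← hE4, le_div_iff₀ (by positivity)]
    linarith
  have hKK0 : 0 ≤ KK θ := by
    unfold KK
    positivity
  have hZ : 0 ≤ 4 * Real.pi ^ (4 / (2 - θ)) * KK θ ^ (4 / (2 - θ)) * R := by positivity
  calc ‖Phi θ ρ σ g θ‖ ^ (4 / (2 - θ)) = (‖Phi θ ρ σ g θ‖ ^ 4) ^ (1 / (2 - θ)) := by
        rw [← Real.rpow_natCast, ← Real.rpow_mul (norm_nonneg _)]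
        congr 1
        push_cast
        ring
    _ ≤ ((4 * Real.pi ^ (4 / (2 - θ)) * KK θ ^ (4 / (2 - θ)) * R) ^ (2 - θ)) ^ (1 / (2 - θ)) := by
        apply Real.rpow_le_rpow (by positivity) hlast (by positivity)
    _ = _ := by
        rw [← Real.rpow_mul hZ, mul_one_div_cancel h2θ.ne', Real.rpow_one]

end Pool.Agent.H15PB
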