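import Pool.Agent.H15PB.Dual

set_option autoImplicit false

open MeasureTheory ENNReal Filter Topology Complex Set
open scoped ComplexConjugate

namespace Pool.Agent.H15PB

open Pool.Agent.N892.BW Pool.Agent.H78.PB

theorem rh_enorm {θ : ℝ} (h0 : 0 < θ) (h1 : θ < 1) (F : ℂ → ℂ) (u : ℂ) :
    ENNReal.ofReal (rh θ F u) = ‖F u‖ₑ ^ pt θ * ‖u‖ₑ ^ (2 * pt θ - 4) := by
  have hp := pt_gt h0 h1
  unfold rh
  rw [ENNReal.ofReal_mul (by positivity), ← ENNReal.ofReal_rpow_of_nonneg (norm_nonneg _) (by linarith),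
    ← ENNReal.ofReal_rpow_of_nonneg (norm_nonneg _) (by linarith), ofReal_norm, ofReal_norm]

theorem KK_pos {θ : ℝ} (h0 : 0 < θ) (h1 : θ < 1) : 0 < KK θ := by
  unfold KK
  have := aa_pos h0 h1
  have := bb_pos h0 h1
  have : 0 < 2 - θ := by linarith
  positivity

/-- functions which vanish near the origin -/
theorem away {θ : ℝ} (h0 : 0 < θ) (h1 : θ < 1) (hK : P_KRN) (h2 : P_POI) (h3 : P_MOM) (h4 : P_KEA)
    (h5 : P_KEB) (h6 : P_CRZ) {F : ℂ → ℂ} (hF : Nice F) {δ : ℝ} (hδ : 0 < δ)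
    (hd : ∀ u, F u ≠ 0 → δ ≤ ‖u‖) :
    ∫⁻ x, ‖hat F x‖ₑ ^ pt θ ≤
      ENNReal.ofReal (4 * Real.pi ^ pt θ * KK θ ^ pt θ) * ∫⁻ u, ‖F u‖ₑ ^ pt θ * ‖u‖ₑ ^ (2 * pt θ - 4) := by
  have hp := pt_gt h0 h1
  have hKK := KK_pos h0 h1
  have hc : 0 < 4 * Real.pi ^ pt θ * KK θ ^ pt θ := by
    have := Real.pi_pos
    positivity
  have hA := adm h0 h1 hF hδ hd
  simp only [← rh_enorm h0 h1]
  set J := ∫⁻ u, ENNReal.ofReal (rh θ F u) with hJ
  by_cases hJt : J = ⊤
  · rw [hJt, ENNReal.mul_top (by simpa using hc)]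
    exact le_top
  by_cases hJ0 : J = 0
  · have hm : Measurable fun u => ENNReal.ofReal (rh θ F u) := ENNReal.measurable_ofReal.comp hA.1
    rw [hJ, lintegral_eq_zero_iff hm] at hJ0
    have hz : ∀ᵐ u : ℂ, F u = 0 := by
      filter_upwards [hJ0] with u hu
      by_contra h
      have hu' : 0 < ‖u‖ := hδ.trans_le (hd u h)
      have hn : 0 < ‖F u‖ := norm_pos_iff.2 h
      have : 0 < rh θ F u := by unfold rh; positivity
      simp only [Pi.zero_apply, ENNReal.ofReal_eq_zero] at hu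
      linarith
    have hhat : ∀ x, hat F x = 0 := by
      intro x
      unfold hat
      rw [integral_eq_zero_of_ae]
      filter_upwards [hz] with u hu
      rw [hu, zero_mul]
      rfl
    simp only [hhat, enorm_zero]
    rw [ENNReal.zero_rpow_of_pos (by linarith)]
    simp
  · have hR : 0 < J.toReal := ENNReal.toReal_pos hJ0 hJt
    have hRe : ∫⁻ u, ENNReal.ofReal (rh θ F u) = ENNReal.ofReal J.toReal := by
      rw [ENNReal.ofReal_toReal hJt]
    have hall : ∀ r : ℝ, ∫⁻ x in Metric.closedBall (0 : ℂ) r, ‖hat F x‖ₑ ^ pt θ ≤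
        ENNReal.ofReal (4 * Real.pi ^ pt θ * KK θ ^ pt θ) * J := by
      intro r
      have := dual h0 h1 hK h2 h3 h4 h5 h6 hF hδ hd hR hRe r
      rwa [ENNReal.ofReal_mul hc.le, ENNReal.ofReal_toReal hJt] at this
    have hcov : AECover volume atTop fun n : ℕ => Metric.closedBall (0 : ℂ) (n : ℝ) :=
      aecover_closedBall tendsto_natCast_atTop_atTop
    have hmeas : AEMeasurable (fun x => ‖hat F x‖ₑ ^ pt θ) (volume : Measure ℂ) :=
      ((hat_meas hF.1).enorm.pow_const _).aemeasurable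
    have ht := hcov.lintegral_tendsto_of_countably_generated hmeas
    exact le_of_tendsto' ht fun n => hall n

/-- cutting off near the origin -/
noncomputable def cut (F : ℂ → ℂ) (k : ℕ) : ℂ → ℂ :=
  {u : ℂ | 1 / ((k : ℝ) + 1) ≤ ‖u‖}.indicator F

theorem cut_set (k : ℕ) : MeasurableSet {u : ℂ | 1 / ((k : ℝ) + 1) ≤ ‖u‖} :=
  measurableSet_le measurable_const measurable_norm

theorem cut_nice {F : ℂ → ℂ} (hF : Nice F) (k : ℕ) : Nice (cut F k) := by
  obtain ⟨hm, ⟨M, hM⟩, ⟨R, hR⟩⟩ := hF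
  refine ⟨hm.indicator (cut_set k), ⟨M, fun x => ?_⟩, ⟨R, fun x hx => ?_⟩⟩
  · unfold cut
    by_cases h : x ∈ {u : ℂ | 1 / ((k : ℝ) + 1) ≤ ‖u‖}
    · rw [indicator_of_mem h]; exact hM x
    · rw [indicator_of_notMem h, norm_zero]
      exact (norm_nonneg _).trans (hM x)
  · unfold cut
    by_cases h : x ∈ {u : ℂ | 1 / ((k : ℝ) + 1) ≤ ‖u‖}
    · rw [indicator_of_mem h]; exact hR x hx
    · rw [indicator_of_notMem h]

theorem cut_le (F : ℂ → ℂ) (k : ℕ) (u : ℂ) : ‖cut F k u‖ ≤ ‖F u‖ := by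
  unfold cut
  exact norm_indicator_le_norm_self _ _

theorem cut_lim (F : ℂ → ℂ) {u : ℂ} (hu : u ≠ 0) : Tendsto (fun k => cut F k u) atTop (𝓝 (F u)) := by
  have h1 : Tendsto (fun k : ℕ => 1 / ((k : ℝ) + 1)) atTop (𝓝 0) := tendsto_one_div_add_atTop_nhds_zero_nat
  have h2 : ∀ᶠ k : ℕ in atTop, 1 / ((k : ℝ) + 1) < ‖u‖ := h1.eventually_lt_const (norm_pos_iff.2 hu)
  apply tendsto_const_nhds.congr'
  filter_upwards [h2] with k hk
  unfold cut
  rw [indicator_of_mem]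
  exact hk.le

theorem cut_hat {F : ℂ → ℂ} (hF : Nice F) (x : ℂ) :
    Tendsto (fun k => hat (cut F k) x) atTop (𝓝 (hat F x)) := by
  unfold hat
  have hi := FOUR.nice_int hF
  have hexm : Measurable fun u : ℂ => ex u x := ex_meas.comp (measurable_id.prodMk measurable_const)
  apply tendsto_integral_of_dominated_convergence (fun u => ‖F u‖)
  · intro k
    exact ((cut_nice hF k).1.mul hexm).aestronglyMeasurable
  · exact hi.norm
  · intro k
    refine Eventually.of_forall fun u => ?_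
    rw [norm_mul, ex_norm, mul_one]
    exact cut_le F k u
  · have : ∀ᵐ u : ℂ, u ≠ 0 := by
      simp [ae_iff]
    filter_upwards [this] with u hu
    exact (cut_lim F hu).mul_const _

theorem all {θ : ℝ} (h0 : 0 < θ) (h1 : θ < 1) (hK : P_KRN) (h2 : P_POI) (h3 : P_MOM) (h4 : P_KEA)
    (h5 : P_KEB) (h6 : P_CRZ) {F : ℂ → ℂ} (hF : Nice F) :
    ∫⁻ x, ‖hat F x‖ₑ ^ pt θ ≤
      ENNReal.ofReal (4 * Real.pi ^ pt θ * KK θ ^ pt θ) * ∫⁻ u, ‖F u‖ₑ ^ pt θ * ‖u‖ₑ ^ (2 * pt θ - 4) := by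
  have hp := pt_gt h0 h1
  set B := ENNReal.ofReal (4 * Real.pi ^ pt θ * KK θ ^ pt θ) *
    ∫⁻ u, ‖F u‖ₑ ^ pt θ * ‖u‖ₑ ^ (2 * pt θ - 4) with hB
  have hk : ∀ k, ∫⁻ x, ‖hat (cut F k) x‖ₑ ^ pt θ ≤ B := by
    intro k
    have hδ : (0 : ℝ) < 1 / ((k : ℝ) + 1) := by positivity
    refine (away h0 h1 hK h2 h3 h4 h5 h6 (cut_nice hF k) hδ ?_).trans ?_
    · intro u hu
      by_contra h
      apply hu
      unfold cut
      rw [indicator_of_notMem]
      exact h
    · rw [hB]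
      refine mul_le_mul_right (lintegral_mono fun u => ?_) _
      refine mul_le_mul_left ?_ _
      apply ENNReal.rpow_le_rpow _ (by linarith)
      rw [← ofReal_norm, ← ofReal_norm]
      exact ENNReal.ofReal_le_ofReal (cut_le F k u)
  have hlim : ∀ x, Tendsto (fun k => ‖hat (cut F k) x‖ₑ ^ pt θ) atTop (𝓝 (‖hat F x‖ₑ ^ pt θ)) := by
    intro x
    exact ((ENNReal.continuous_rpow_const).tendsto _).comp ((continuous_enorm.tendsto _).comp (cut_hat hF x))
  calc ∫⁻ x, ‖hat F x‖ₑ ^ pt θ = ∫⁻ x, liminf (fun k => ‖hat (cut F k) x‖ₑ ^ pt θ) atTop := by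
        refine lintegral_congr fun x => ?_
        exact ((hlim x).liminf_eq).symm
    _ ≤ liminf (fun k => ∫⁻ x, ‖hat (cut F k) x‖ₑ ^ pt θ) atTop := by
        apply lintegral_liminf_le
        intro k
        exact (hat_meas (cut_nice hF k).1).enorm.pow_const _
    _ ≤ B := by
        refine (liminf_le_liminf (v := fun _ => B) (Eventually.of_forall hk)).trans ?_
        simp

/-- **PIT.** -/
theorem t (h1 : P_KRN) (h2 : P_POI) (h3 : P_MOM) (h4 : P_KEA) (h5 : P_KEB) (h6 : P_CRZ) : P_PIT := by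
  intro θ hθ0 hθ1 F hF
  have h := all hθ0 hθ1 h1 h2 h3 h4 h5 h6 hF
  have e0 : 2 * (2 / (2 - θ)) = pt θ := by
    unfold pt
    ring
  have e1 : 4 * (2 / (2 - θ)) - 4 = 2 * pt θ - 4 := by
    unfold pt
    ring
  rw [e0, e1]
  refine le_trans (le_of_eq ?_) h
  rw [← lintegral_neg_eq_self (fun x => ‖hat F x‖ₑ ^ pt θ)]
  refine lintegral_congr fun x => ?_
  rw [hat_neg, neg_neg]

end Pool.Agent.H15PB
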