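import Pool.Agent.H15PB.Fam

set_option autoImplicit false

open MeasureTheory ENNReal Filter Topology Complex Set
open scoped ComplexConjugate

namespace Pool.Agent.H15PB

open Pool.Agent.N892.BW Pool.Agent.H78.PB

theorem cc_meas {ρ : ℂ → ℝ} {σ g : ℂ → ℂ} (hρ : Measurable ρ) (hσ : Measurable σ) (hg : Measurable g) :
    Measurable (cc ρ σ g) := by
  unfold cc
  have h1 : Measurable fun w : ℂ × ℂ => cu ρ σ w.2 := (cu_meas hρ hσ).comp measurable_snd
  have h2 : Measurable fun w : ℂ × ℂ => ex w.2 w.1 := by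
    exact ex_meas.comp (measurable_snd.prodMk measurable_fst)
  have h3 : Measurable fun w : ℂ × ℂ => cg g w.1 := (cg_meas hg).comp measurable_fst
  exact (h1.mul h2).mul h3

theorem ca_meas {θ : ℝ} {ρ : ℂ → ℝ} {g : ℂ → ℂ} (hρ : Measurable ρ) (hg : Measurable g) :
    Measurable (ca θ ρ g) := by
  unfold ca
  have h1 : Measurable fun w : ℂ × ℂ => la ρ w.2 := (la_meas hρ).comp measurable_snd
  have h3 : Measurable fun w : ℂ × ℂ => lg g w.1 := (lg_meas hg).comp measurable_fst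
  exact (h1.const_mul _).add (h3.const_mul _)

theorem cb_meas {θ : ℝ} {ρ : ℂ → ℝ} {g : ℂ → ℂ} (hρ : Measurable ρ) (hg : Measurable g) :
    Measurable (cb θ ρ g) := by
  unfold cb
  have h1 : Measurable fun w : ℂ × ℂ => la ρ w.2 := (la_meas hρ).comp measurable_snd
  have h2 : Measurable fun w : ℂ × ℂ => lu ρ w.2 := (lu_meas hρ).comp measurable_snd
  have h3 : Measurable fun w : ℂ × ℂ => lg g w.1 := (lg_meas hg).comp measurable_fst
  exact ((h1.const_mul _).sub h2).add (h3.const_mul _)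

theorem cc_norm {ρ : ℂ → ℝ} {σ : ℂ → ℂ} (hσ : ∀ u, ‖σ u‖ ≤ 1) (g : ℂ → ℂ) (w : ℂ × ℂ) :
    ‖cc ρ σ g w‖ ≤ 1 := by
  unfold cc
  rw [norm_mul, norm_mul, ex_norm, mul_one]
  exact mul_le_one₀ (cu_norm hσ _) (norm_nonneg _) (cg_norm _ _)

theorem FZ_zero {ρ : ℂ → ℝ} {σ : ℂ → ℂ} {R : ℝ} (hR : ∀ u, ρ u ≠ 0 → ‖u‖ ≤ R) (z u : ℂ) (hu : R < ‖u‖) :
    FZ ρ σ z u = 0 := by
  classical
  have : ρ u = 0 := by
    by_contra h
    exact absurd (hR u h) (not_le.2 hu)
  simp [FZ, this]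

theorem gz_zero {θ : ℝ} {g : ℂ → ℂ} (z x : ℂ) (hx : g x = 0) : gz θ g z x = 0 := by
  classical
  simp [gz, hx]

theorem Phi_eq {θ : ℝ} (hθ : 0 < θ) {ρ : ℂ → ℝ} {σ : ℂ → ℂ} (hA : Adm ρ σ) {g : ℂ → ℂ} (hg : Nice g)
    {R0 R1 : ℝ} (hR0 : ∀ u, ρ u ≠ 0 → ‖u‖ ≤ R0) (hR1 : ∀ x, R1 < ‖x‖ → g x = 0) (z : ℂ)
    (hz : 0 ≤ z.re) (hz1 : z.re ≤ 1) :
    Phi θ ρ σ g z = ∫ w, cc ρ σ g w * Complex.exp ((ca θ ρ g w : ℂ) + z * (cb θ ρ g w : ℂ))
      ∂((volume.restrict (Metric.closedBall (0 : ℂ) R1)).prod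
        (volume.restrict (Metric.closedBall (0 : ℂ) R0))) := by
  have : IsFiniteMeasure (volume.restrict (Metric.closedBall (0 : ℂ) R0)) :=
    isFiniteMeasure_restrict.2 (measure_closedBall_lt_top).ne
  have : IsFiniteMeasure (volume.restrict (Metric.closedBall (0 : ℂ) R1)) :=
    isFiniteMeasure_restrict.2 (measure_closedBall_lt_top).ne
  obtain ⟨K, hK0, hK⟩ := K_bound hθ hA hg
  have hρm := hA.1
  have hσm := hA.2.1
  have h0 := hA.2.2.1
  have hσ1 := hA.2.2.2.2.2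
  have hgm := hg.1
  have hm : Measurable fun w : ℂ × ℂ => cc ρ σ g w *
      Complex.exp ((ca θ ρ g w : ℂ) + z * (cb θ ρ g w : ℂ)) := by
    have m1 := cc_meas hρm hσm hgm
    have m2 := ca_meas (θ := θ) hρm hgm
    have m3 := cb_meas (θ := θ) hρm hgm
    fun_prop
  have hint : Integrable (fun w : ℂ × ℂ => cc ρ σ g w *
      Complex.exp ((ca θ ρ g w : ℂ) + z * (cb θ ρ g w : ℂ)))
      ((volume.restrict (Metric.closedBall (0 : ℂ) R1)).prod
        (volume.restrict (Metric.closedBall (0 : ℂ) R0))) := by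
    apply Integrable.of_bound hm.aestronglyMeasurable K
    refine Eventually.of_forall fun w => ?_
    rw [norm_mul, Complex.norm_exp]
    calc ‖cc ρ σ g w‖ * Real.exp ((ca θ ρ g w : ℂ) + z * (cb θ ρ g w : ℂ)).re
        ≤ 1 * K := by
          apply mul_le_mul (cc_norm hσ1 g w) _ (Real.exp_pos _).le zero_le_one
          have := hK w z.re (by linarith) (by linarith)
          refine le_trans (le_of_eq ?_) this
          congr 1
          simp
      _ = K := one_mul _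
  rw [integral_prod _ hint]
  unfold Phi
  rw [setIntegral_eq_integral_of_forall_compl_eq_zero]
  · refine integral_congr_ae (Eventually.of_forall fun x => ?_)
    simp only
    unfold hat
    rw [← integral_mul_const, setIntegral_eq_integral_of_forall_compl_eq_zero]
    · refine integral_congr_ae (Eventually.of_forall fun u => ?_)
      simp only
      exact prod_eq θ ρ σ g h0 z x u
    · intro u hu
      rw [mem_closedBall_zero_iff, not_le] at hu
      rw [← prod_eq θ ρ σ g h0 z x u, FZ_zero hR0 z u hu, zero_mul, zero_mul]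
  · intro x hx
    rw [mem_closedBall_zero_iff, not_le] at hx
    have : ∀ u, cc ρ σ g (x, u) * Complex.exp ((ca θ ρ g (x, u) : ℂ) + z * (cb θ ρ g (x, u) : ℂ)) = 0 := by
      intro u
      rw [← prod_eq θ ρ σ g h0 z x u, gz_zero z x (hR1 x hx), mul_zero]
    simp only [this, integral_zero]

/-- `Phi` is analytic and bounded in the strip -/
theorem Phi_ana {θ : ℝ} (hθ : 0 < θ) {ρ : ℂ → ℝ} {σ : ℂ → ℂ} (hA : Adm ρ σ) {g : ℂ → ℂ} (hg : Nice g) :
    DiffContOnCl ℂ (Phi θ ρ σ g) {z : ℂ | 0 < z.re ∧ z.re < 1} ∧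
    ∃ K : ℝ, 0 ≤ K ∧ ∀ z : ℂ, 0 ≤ z.re → z.re ≤ 1 → ‖Phi θ ρ σ g z‖ ≤ K := by
  obtain ⟨K, hK0, hK⟩ := K_bound hθ hA hg
  obtain ⟨δ, R0, hδ, hR⟩ := hA.2.2.2.2.1
  obtain ⟨R1, hR1⟩ := hg.2.2
  have : IsFiniteMeasure (volume.restrict (Metric.closedBall (0 : ℂ) R0)) :=
    isFiniteMeasure_restrict.2 (measure_closedBall_lt_top).ne
  have : IsFiniteMeasure (volume.restrict (Metric.closedBall (0 : ℂ) R1)) :=
    isFiniteMeasure_restrict.2 (measure_closedBall_lt_top).ne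
  have hρm := hA.1
  have hσm := hA.2.1
  have hσ1 := hA.2.2.2.2.2
  have hgm := hg.1
  have key := ana ((volume.restrict (Metric.closedBall (0 : ℂ) R1)).prod
        (volume.restrict (Metric.closedBall (0 : ℂ) R0))) (ca θ ρ g) (cb θ ρ g) (cc ρ σ g)
    (ca_meas hρm hgm) (cb_meas hρm hgm) (cc_meas hρm hσm hgm) K hK (cc_norm hσ1 g)
  have hcl : closure {z : ℂ | 0 < z.re ∧ z.re < 1} ⊆ {z : ℂ | 0 ≤ z.re ∧ z.re ≤ 1} := by
    apply closure_minimal
    · intro z hz
      exact ⟨hz.1.le, hz.2.le⟩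
    · have e1 : IsClosed {z : ℂ | 0 ≤ z.re} := isClosed_le continuous_const Complex.continuous_re
      have e2 : IsClosed {z : ℂ | z.re ≤ 1} := isClosed_le Complex.continuous_re continuous_const
      exact e1.inter e2
  have heq : EqOn (Phi θ ρ σ g) (fun z : ℂ => ∫ w, cc ρ σ g w *
      Complex.exp ((ca θ ρ g w : ℂ) + z * (cb θ ρ g w : ℂ))
      ∂((volume.restrict (Metric.closedBall (0 : ℂ) R1)).prod
        (volume.restrict (Metric.closedBall (0 : ℂ) R0)))) (closure {z : ℂ | 0 < z.re ∧ z.re < 1}) := by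
    intro z hz
    have := hcl hz
    exact Phi_eq hθ hA hg (fun u hu => (hR u hu).2) hR1 z this.1 this.2
  constructor
  · exact ⟨key.1.differentiableOn.congr fun z hz => heq (subset_closure hz), key.1.continuousOn.congr heq⟩
  · refine ⟨K * ((volume.restrict (Metric.closedBall (0 : ℂ) R1)).prod
        (volume.restrict (Metric.closedBall (0 : ℂ) R0))).real univ, by positivity, fun z h1 h2 => ?_⟩
    rw [Phi_eq hθ hA hg (fun u hu => (hR u hu).2) hR1 z h1 h2]
    exact key.2 z h1 h2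

end Pool.Agent.H15PB
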